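import Mathlib

/-!
# Taylor polynomials of the cosine
-/

set_option autoImplicit false

namespace Pool.Agent.TH275.AM

open Finset Complex

/-- Coefficients of the Taylor polynomial of `cos (s / 2)`. -/
noncomputable def tc (m : ℕ) : ℝ := ((I / 2) ^ m / (m.factorial : ℂ)).re

/-- The rescaled Taylor polynomial of `cos (s / 2)`. -/
noncomputable def TT (n : ℕ) (s : ℝ) : ℝ := 100 / 101 * ∑ m ∈ Finset.range n, tc m * s ^ m

/-- The Taylor polynomials approximate the cosine on long intervals. -/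
lemma tay_near (q K : ℕ) (s : ℝ) (hs : |s| ≤ q) :
    |∑ m ∈ Finset.range (8 * q + (8 + K)), tc m * s ^ m - Real.cos (s / 2)|
      ≤ 1 / 100 * (1 / 4) ^ K := by
  set n := 8 * q + (8 + K) with hn
  have h1 : ∑ m ∈ Finset.range n, tc m * s ^ m
      = (∑ m ∈ Finset.range n, ((s / 2 : ℝ) * I : ℂ) ^ m / (m.factorial : ℂ)).re := by
    rw [Complex.re_sum]
    refine Finset.sum_congr rfl fun m _ => ?_
    unfold tc
    have e : ((s / 2 : ℝ) * I : ℂ) ^ m / (m.factorial : ℂ) = ((s ^ m : ℝ) : ℂ) * ((I / 2) ^ m / (m.factorial : ℂ)) := by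
      push_cast
      rw [show (s:ℂ) / 2 * I = s * (I / 2) by ring, mul_pow]; ring
    rw [e, Complex.re_ofReal_mul]; ring
  have h2 : Real.cos (s / 2) = (Complex.exp ((s / 2 : ℝ) * I : ℂ)).re := by
    rw [Complex.exp_ofReal_mul_I_re]
  have hnorm : ‖((s / 2 : ℝ) * I : ℂ)‖ ≤ q / 2 := by
    rw [norm_mul, Complex.norm_I, mul_one, Complex.norm_real, Real.norm_eq_abs, abs_div]
    norm_num
    linarith
  have h3 := Complex.exp_bound' (x := ((s / 2 : ℝ) * I : ℂ)) (n := n) (by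
    rw [div_le_iff₀ (by positivity)]
    refine hnorm.trans ?_
    rw [hn]; push_cast
    have : (0:ℝ) ≤ q := Nat.cast_nonneg q
    have : (0:ℝ) ≤ K := Nat.cast_nonneg K
    linarith)
  rw [h1, h2, abs_sub_comm, ← Complex.sub_re]
  refine (Complex.abs_re_le_norm _).trans (h3.trans ?_)
  have h4 : ‖((s / 2 : ℝ) * I : ℂ)‖ ^ n / (n.factorial : ℝ) ≤ (1 / 4) ^ n * Real.exp (2 * q) := by
    have h5 := Real.pow_div_factorial_le_exp (2 * (q:ℝ)) (by positivity) n
    calc ‖((s / 2 : ℝ) * I : ℂ)‖ ^ n / (n.factorial : ℝ) ≤ (q / 2 : ℝ) ^ n / (n.factorial : ℝ) := by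
          gcongr
      _ = (1 / 4) ^ n * ((2 * (q:ℝ)) ^ n / (n.factorial : ℝ)) := by
          rw [show (q / 2 : ℝ) = 1 / 4 * (2 * q) by ring, mul_pow]; ring
      _ ≤ _ := by gcongr
  have h6 : (1 / 4 : ℝ) ^ n * Real.exp (2 * q) ≤ 1 / 200 * (1 / 4) ^ K := by
    have he : Real.exp 1 ≤ 3 := by
      have := Real.exp_one_lt_d9; linarith
    have h7 : Real.exp (2 * q) ≤ 9 ^ q := by
      have e : Real.exp (2 * q) = (Real.exp 1 ^ 2) ^ q := by
        rw [← Real.exp_nat_mul, ← Real.exp_nat_mul]; congr 1; push_cast; ring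
      rw [e]
      have : Real.exp 1 ^ 2 ≤ 9 := by
        nlinarith [Real.exp_pos 1]
      gcongr
    have h8 : (1 / 4 : ℝ) ^ n = (1 / 4) ^ K * ((1 / 4) ^ 8 * ((1 / 4) ^ 8) ^ q) := by
      rw [hn, pow_add, pow_add, pow_mul]; ring
    calc (1 / 4 : ℝ) ^ n * Real.exp (2 * q)
        ≤ (1 / 4) ^ K * ((1 / 4) ^ 8 * ((1 / 4) ^ 8) ^ q) * 9 ^ q := by
          rw [h8]; gcongr
      _ = (1 / 4) ^ K * ((1 / 4) ^ 8 * ((1 / 4) ^ 8 * 9) ^ q) := by rw [mul_pow]; ring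
      _ ≤ (1 / 4) ^ K * ((1 / 4) ^ 8 * 1) := by
          gcongr
          exact pow_le_one₀ (by norm_num) (by norm_num)
      _ ≤ 1 / 200 * (1 / 4) ^ K := by
          have : (0:ℝ) < (1 / 4) ^ K := by positivity
          have h9 : ((1:ℝ) / 4) ^ 8 * 1 ≤ 1 / 200 := by norm_num
          calc (1 / 4 : ℝ) ^ K * ((1 / 4) ^ 8 * 1) ≤ (1 / 4) ^ K * (1 / 200) := by gcongr
            _ = _ := by ring
  have h10 : (0:ℝ) < (1 / 4) ^ K := by positivity
  linarith

lemma TT_near (q : ℕ) (s : ℝ) (hs : |s| ≤ q) :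
    |101 / 100 * TT (8 * q + 8) s - Real.cos (s / 2)| ≤ 1 / 100 := by
  have h := tay_near q 0 s hs
  have e : 101 / 100 * TT (8 * q + 8) s = ∑ m ∈ Finset.range (8 * q + (8 + 0)), tc m * s ^ m := by
    unfold TT
    rw [← mul_assoc, show (101 / 100 * (100 / 101) : ℝ) = 1 by norm_num, one_mul]
  rw [e]
  simpa using h

lemma TT_abs (q : ℕ) (s : ℝ) (hs : |s| ≤ q) : |TT (8 * q + 8) s| ≤ 1 := by
  have h1 := TT_near q s hs
  have h2 := Real.abs_cos_le_one (s / 2)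
  have h3 := abs_le.1 h1
  have h4 := abs_le.1 h2
  rw [abs_le]
  constructor <;> linarith

end Pool.Agent.TH275.AM
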