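import Pool.Agent.TH275.AM.Circle
import Pool.Agent.TH275.AM.Taylor

/-!
# Almost Boolean polynomials of sums of copies
-/

set_option autoImplicit false

namespace Pool.Agent.TH275.AM

open Finset

/-- The polynomial with coefficients `c`. -/
def pe (A : ℕ) (c : ℕ → ℝ) (u : ℝ) : ℝ := ∑ a ∈ Finset.range A, c a * u ^ a

/-- Odd polynomials close to the sign away from the origin. -/
lemma odd_poly (γ ε₁ : ℝ) (hγ : 0 < γ) (hε : 0 < ε₁) (hε2 : ε₁ ≤ 1) :
    ∃ (A : ℕ) (c : ℕ → ℝ), (∀ a, Even a → c a = 0) ∧ (∀ u, |u| ≤ 1 → |pe A c u| ≤ 1) ∧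
      (∀ u, γ ≤ |u| → |u| ≤ 1 → 1 - ε₁ ≤ |pe A c u|) := by
  let g : ℝ → ℝ := fun u => (1 - ε₁ / 2) * max (-1) (min 1 (u / γ))
  have hgc : Continuous g := by fun_prop
  have hgodd : ∀ u, g (-u) = - g u := by
    intro u
    show (1 - ε₁ / 2) * max (-1) (min 1 (-u / γ)) = - ((1 - ε₁ / 2) * max (-1) (min 1 (u / γ)))
    have : max (-1) (min 1 (-u / γ)) = - max (-1 : ℝ) (min 1 (u / γ)) := by
      rw [neg_div, ← min_neg_neg, neg_neg, ← max_neg_neg]
      rw [show min (1:ℝ) (max (-1) (-(u / γ))) = max (-1) (min 1 (-(u / γ))) by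
        rw [max_min_distrib_left]
        rw [show max (-1:ℝ) 1 = 1 by norm_num]]
    rw [this]; ring
  have hg1 : ∀ u, |g u| ≤ 1 - ε₁ / 2 := by
    intro u
    show |(1 - ε₁ / 2) * max (-1) (min 1 (u / γ))| ≤ _
    rw [abs_mul, abs_of_nonneg (by linarith)]
    have : |max (-1) (min 1 (u / γ))| ≤ 1 := by
      rw [abs_le]
      exact ⟨le_max_left _ _, max_le (by norm_num) (min_le_left _ _)⟩
    exact mul_le_of_le_one_right (by linarith) this
  have hg2 : ∀ u, γ ≤ |u| → |g u| = 1 - ε₁ / 2 := by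
    intro u hu
    show |(1 - ε₁ / 2) * max (-1) (min 1 (u / γ))| = _
    rw [abs_mul, abs_of_nonneg (show (0:ℝ) ≤ 1 - ε₁ / 2 by linarith)]
    have : |max (-1) (min 1 (u / γ))| = 1 := by
      rcases le_abs.1 hu with h | h
      · have h1 : 1 ≤ u / γ := by rw [le_div_iff₀ hγ]; linarith
        rw [min_eq_left h1, max_eq_right (by norm_num), abs_one]
      · have h1 : u / γ ≤ -1 := by rw [div_le_iff₀ hγ]; linarith
        rw [min_eq_right (by linarith), max_eq_left h1, abs_neg, abs_one]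
    rw [this, mul_one]
  obtain ⟨p, hp⟩ := exists_polynomial_near_of_continuousOn (-1) 1 g hgc.continuousOn (ε₁ / 2)
    (by positivity)
  refine ⟨p.natDegree + 1, fun a => if Odd a then p.coeff a else 0, ?_, ?_⟩
  · intro a ha
    beta_reduce
    rw [if_neg (by rwa [Nat.not_odd_iff_even])]
  have hq : ∀ u, pe (p.natDegree + 1) (fun a => if Odd a then p.coeff a else 0) u
      = (p.eval u - p.eval (-u)) / 2 := by
    intro u
    rw [Polynomial.eval_eq_sum_range, Polynomial.eval_eq_sum_range]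
    unfold pe
    rw [← Finset.sum_sub_distrib, Finset.sum_div]
    refine Finset.sum_congr rfl fun a _ => ?_
    beta_reduce
    by_cases ha : Odd a
    · rw [if_pos ha, ha.neg_pow]; ring
    · rw [if_neg ha, (Nat.not_odd_iff_even.1 ha).neg_pow]; ring
  have hnear : ∀ u, |u| ≤ 1 →
      |pe (p.natDegree + 1) (fun a => if Odd a then p.coeff a else 0) u - g u| ≤ ε₁ / 2 := by
    intro u hu
    have hu' := abs_le.1 hu
    have h1 := hp u ⟨hu'.1, hu'.2⟩
    have h2 := hp (-u) ⟨by linarith, by linarith⟩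
    rw [hgodd] at h2
    rw [hq]
    rw [abs_lt] at h1 h2
    rw [abs_le]
    constructor <;> linarith [h1.1, h1.2, h2.1, h2.2]
  constructor
  · intro u hu
    have h1 := hnear u hu
    have h2 := hg1 u
    have h3 := abs_sub_abs_le_abs_sub
      (pe (p.natDegree + 1) (fun a => if Odd a then p.coeff a else 0) u) (g u)
    linarith
  · intro u hγu hu
    have h1 := hnear u hu
    have h2 := hg2 u hγu
    have h3 := abs_sub_abs_le_abs_sub (g u)
      (pe (p.natDegree + 1) (fun a => if Odd a then p.coeff a else 0) u)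
    rw [abs_sub_comm (g u)] at h3
    linarith

lemma abs_pow_sub (u v : ℝ) (hu : |u| ≤ 1) (hv : |v| ≤ 1) (a : ℕ) :
    |u ^ a - v ^ a| ≤ a * |u - v| := by
  induction a with
  | zero => simp
  | succ a ih =>
    have e : u ^ (a + 1) - v ^ (a + 1) = u * (u ^ a - v ^ a) + v ^ a * (u - v) := by ring
    rw [e]
    refine (abs_add_le _ _).trans ?_
    rw [abs_mul, abs_mul, abs_pow]
    have h1 : |u| * |u ^ a - v ^ a| ≤ a * |u - v| :=
      (mul_le_of_le_one_left (abs_nonneg _) hu).trans ih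
    have h2 : |v| ^ a * |u - v| ≤ |u - v| :=
      mul_le_of_le_one_left (abs_nonneg _) (pow_le_one₀ (abs_nonneg _) hv)
    push_cast
    linarith

lemma pe_lip (A : ℕ) (c : ℕ → ℝ) (u v : ℝ) (hu : |u| ≤ 1) (hv : |v| ≤ 1) :
    |pe A c u - pe A c v| ≤ (∑ a ∈ Finset.range A, (a:ℝ) * |c a|) * |u - v| := by
  unfold pe
  rw [← Finset.sum_sub_distrib, Finset.sum_mul]
  refine (Finset.abs_sum_le_sum_abs _ _).trans (Finset.sum_le_sum fun a _ => ?_)
  rw [← mul_sub, abs_mul]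
  have := mul_le_mul_of_nonneg_left (abs_pow_sub u v hu hv a) (abs_nonneg (c a))
  linarith

/-- Rescaled Taylor polynomial of `cos (θ s)`. -/
noncomputable def TE (e θ : ℝ) (n : ℕ) (s : ℝ) : ℝ :=
  1 / (1 + e) * ∑ m ∈ Finset.range n, tc m * (2 * θ * s) ^ m

lemma TE_near (e θ : ℝ) (he : 0 < e) (hθ0 : 0 ≤ θ) (hθ : θ ≤ 1 / 2) (K : ℕ)
    (hK : (1 / 4 : ℝ) ^ K ≤ e) (q : ℕ) (s : ℝ) (hs : |s| ≤ q) :
    |(1 + e) * TE e θ (8 * q + (8 + K)) s - Real.cos (θ * s)| ≤ e := by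
  have h1 : (1 + e) * TE e θ (8 * q + (8 + K)) s
      = ∑ m ∈ Finset.range (8 * q + (8 + K)), tc m * (2 * θ * s) ^ m := by
    unfold TE
    rw [← mul_assoc, mul_one_div_cancel (by linarith), one_mul]
  have hs' : |2 * θ * s| ≤ q := by
    rw [abs_mul, abs_of_nonneg (by linarith)]
    exact (mul_le_of_le_one_left (abs_nonneg _) (by linarith)).trans hs
  have h2 := tay_near q K (2 * θ * s) hs'
  have e1 : 2 * θ * s / 2 = θ * s := by ring
  rw [h1]
  rw [e1] at h2
  have h3 : (0:ℝ) < (1 / 4) ^ K := by positivity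
  linarith

variable {Ω : Type*} [Fintype Ω]

/-- The main construction: for every `ε` a polynomial of a sum of many copies has mean at most `ε`
and second moment at least `1 - ε`. -/
theorem almost_bool (ε : ℝ) (hε : 0 < ε) (hε1 : ε ≤ 1) :
    ∃ (A : ℕ) (c : ℕ → ℝ) (θ e : ℝ) (n₀ : ℕ) (Q₀ : ℝ), 0 < Q₀ ∧
      (∀ (q : ℕ) (s : ℝ), |s| ≤ q → |pe A c (TE e θ (8 * q + n₀) s)| ≤ 1) ∧
      ∀ (Ω : Type) [Fintype Ω] [Nonempty Ω] (q : ℕ) (f : Fin q → Ω → ℝ) (v : ℝ),
        (∀ j x, |f j x| ≤ 1) → (∀ j, v ≤ vr (f j)) → Q₀ ≤ q * v →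
        |avr (fun z : Fin q → Ω => pe A c (TE e θ (8 * q + n₀) (∑ j, f j (z j))))| < ε ∧
        1 - ε < avr (fun z : Fin q → Ω => pe A c (TE e θ (8 * q + n₀) (∑ j, f j (z j))) ^ 2) := by
  -- the constants
  obtain ⟨ε₁, hε₁⟩ : ∃ ε₁ : ℝ, ε₁ = ε / 16 := ⟨_, rfl⟩
  have hε₁0 : 0 < ε₁ := by rw [hε₁]; positivity
  obtain ⟨M, hM⟩ := exists_nat_ge (64 / ε)
  have hM1 : 1 ≤ M := by
    have : (0:ℝ) < M := lt_of_lt_of_le (by positivity) hM
    exact_mod_cast this
  have hM0 : (0:ℝ) < M := by exact_mod_cast hM1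
  have hMε : 1 / (M:ℝ) ≤ ε / 64 := by
    rw [div_le_iff₀ hε] at hM
    rw [div_le_div_iff₀ hM0 (by norm_num)]
    linarith
  obtain ⟨A, c, hc0, hc1, hc2⟩ := odd_poly (1 / (2 * M)) ε₁ (by positivity) hε₁0
    (by rw [hε₁]; linarith)
  obtain ⟨J, hJ⟩ : ∃ J : ℕ, J = A + 2 * M := ⟨_, rfl⟩
  obtain ⟨θ, hθ⟩ : ∃ θ : ℝ, θ = 1 / (2 * ((J:ℝ) + 1)) := ⟨_, rfl⟩
  have hθ0 : 0 < θ := by rw [hθ]; positivity
  have hθ1 : θ ≤ 1 / 2 := by
    rw [hθ, div_le_div_iff₀ (by positivity) (by norm_num)]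
    have : (0:ℝ) ≤ J := Nat.cast_nonneg J
    linarith
  have hkθ : ∀ k : ℕ, k ≤ J → |(k:ℝ) * θ| ≤ 1 := by
    intro k hk
    rw [abs_of_nonneg (by positivity), hθ, mul_one_div, div_le_one (by positivity)]
    have : (k:ℝ) ≤ J := by exact_mod_cast hk
    linarith
  obtain ⟨W, hW⟩ : ∃ W : ℝ, W = ∑ a ∈ Finset.range A, |c a| + 1 := ⟨_, rfl⟩
  have hW1 : 1 ≤ W := by
    rw [hW]
    have : 0 ≤ ∑ a ∈ Finset.range A, |c a| := Finset.sum_nonneg fun _ _ => abs_nonneg _
    linarith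
  obtain ⟨η, hη⟩ : ∃ η : ℝ, η = ε / (64 * W) := ⟨_, rfl⟩
  have hη0 : 0 < η := by rw [hη]; positivity
  have hη1 : η ≤ ε / 64 := by
    rw [hη]; gcongr; linarith
  have hWη : W * η ≤ ε / 64 := by
    rw [hη]
    apply le_of_eq
    field_simp
  obtain ⟨Lp, hLp⟩ : ∃ Lp : ℝ, Lp = ∑ a ∈ Finset.range A, (a:ℝ) * |c a| + 1 := ⟨_, rfl⟩
  have hLp1 : 1 ≤ Lp := by
    rw [hLp]
    have : 0 ≤ ∑ a ∈ Finset.range A, (a:ℝ) * |c a| :=
      Finset.sum_nonneg fun _ _ => mul_nonneg (Nat.cast_nonneg _) (abs_nonneg _)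
    linarith
  obtain ⟨e, he⟩ : ∃ e : ℝ, e = ε₁ / (2 * Lp) := ⟨_, rfl⟩
  have he0 : 0 < e := by rw [he]; positivity
  obtain ⟨K, hK⟩ := exists_pow_lt_of_lt_one he0 (by norm_num : (1 / 4 : ℝ) < 1)
  have hlog : 0 < Real.log (1 / η) := by
    apply Real.log_pos
    rw [lt_div_iff₀ hη0]; linarith
  -- properties of the Taylor polynomial
  have hTE : ∀ (q : ℕ) (s : ℝ), |s| ≤ q →
      |TE e θ (8 * q + (8 + K)) s| ≤ 1 ∧
      |TE e θ (8 * q + (8 + K)) s - Real.cos (θ * s)| ≤ 2 * e := by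
    intro q s hs
    have h1 := TE_near e θ he0 hθ0.le hθ1 K hK.le q s hs
    set T := TE e θ (8 * q + (8 + K)) s
    have h2 := Real.abs_cos_le_one (θ * s)
    have h3 : |(1 + e) * T| ≤ 1 + e := by
      have := abs_sub_abs_le_abs_sub ((1 + e) * T) (Real.cos (θ * s))
      linarith
    have h4 : |T| ≤ 1 := by
      rw [abs_mul, abs_of_pos (by linarith : 0 < 1 + e)] at h3
      by_contra hcon
      push Not at hcon
      nlinarith
    refine ⟨h4, ?_⟩
    have h5 : T - Real.cos (θ * s) = ((1 + e) * T - Real.cos (θ * s)) - e * T := by ring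
    rw [h5]
    refine (abs_sub _ _).trans ?_
    rw [abs_mul, abs_of_pos he0]
    have h6 : e * |T| ≤ e := mul_le_of_le_one_right he0.le h4
    linarith
  refine ⟨A, c, θ, e, 8 + K, 5 * Real.log (1 / η) / θ ^ 2, by positivity,
    fun q s hs => hc1 _ (hTE q s hs).1, ?_⟩
  intro Ω _ _ q f v hf hv hq
  obtain ⟨S, hS⟩ : ∃ S : (Fin q → Ω) → ℝ, ∀ z, S z = ∑ j, f j (z j) := ⟨_, fun _ => rfl⟩
  have hSq : ∀ z, |S z| ≤ q := by
    intro z
    rw [hS]
    refine (Finset.abs_sum_le_sum_abs _ _).trans ?_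
    calc ∑ j, |f j (z j)| ≤ ∑ _j : Fin q, (1:ℝ) := Finset.sum_le_sum fun j _ => hf j _
      _ = q := by simp
  have hch : ∀ k : ℕ, 1 ≤ k → k ≤ J → ‖ch S (k * θ)‖ ≤ η := by
    intro k hk1 hk
    have e0 : S = fun z => ∑ j, f j (z j) := funext hS
    rw [e0]
    refine (ch_copies f hf v hv (k * θ) (hkθ k hk)).trans ?_
    rw [← Real.exp_log hη0]
    apply Real.exp_le_exp.2
    have h1 : Real.log η = - Real.log (1 / η) := by rw [one_div, Real.log_inv, neg_neg]
    rw [h1]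
    have h2 : Real.log (1 / η) ≤ θ ^ 2 * (q * v) / 5 := by
      rw [div_le_iff₀ (by positivity)] at hq
      linarith
    have h3 : θ ^ 2 ≤ ((k:ℝ) * θ) ^ 2 := by
      have hk' : (1:ℝ) ≤ k := by exact_mod_cast hk1
      apply pow_le_pow_left₀ hθ0.le
      nlinarith
    have hqv : 0 ≤ (q:ℝ) * v := le_trans (by positivity) hq
    have h4 := mul_le_mul_of_nonneg_right h3 hqv
    linarith
  -- reduction to the cosine
  have hF : ∀ z, |pe A c (TE e θ (8 * q + (8 + K)) (S z)) - pe A c (Real.cos (θ * S z))| ≤ ε₁ := by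
    intro z
    obtain ⟨h1, h2⟩ := hTE q (S z) (hSq z)
    refine (pe_lip A c _ _ h1 (Real.abs_cos_le_one _)).trans ?_
    have h3 : ∑ a ∈ Finset.range A, (a:ℝ) * |c a| ≤ Lp := by rw [hLp]; linarith
    calc (∑ a ∈ Finset.range A, (a:ℝ) * |c a|) * |TE e θ (8 * q + (8 + K)) (S z) - Real.cos (θ * S z)|
        ≤ Lp * (2 * e) := by gcongr
      _ = ε₁ := by rw [he]; field_simp
  have hmean : |avr (fun z => pe A c (Real.cos (θ * S z)))| ≤ W * η := by
    have e1 : avr (fun z => pe A c (Real.cos (θ * S z)))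
        = ∑ a ∈ Finset.range A, c a * avr (fun z => Real.cos (θ * S z) ^ a) := by
      unfold pe avr
      rw [Finset.sum_comm, Finset.sum_div]
      refine Finset.sum_congr rfl fun a _ => ?_
      rw [← Finset.mul_sum, mul_div_assoc]
    rw [e1]
    refine (Finset.abs_sum_le_sum_abs _ _).trans ?_
    have h2 : ∑ a ∈ Finset.range A, |c a * avr (fun z => Real.cos (θ * S z) ^ a)|
        ≤ ∑ a ∈ Finset.range A, |c a| * η := by
      refine Finset.sum_le_sum fun a ha => ?_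
      rw [abs_mul]
      by_cases hodd : Odd a
      · have h3 := avr_cos_pow S θ η J hch a 0 (by
          rw [Finset.mem_range] at ha
          simp only [abs_zero, add_zero]
          rw [hJ]; push_cast; omega) (by simpa using hodd)
        simp only [Int.cast_zero, zero_mul, Real.cos_zero, mul_one] at h3
        exact mul_le_mul_of_nonneg_left h3 (abs_nonneg _)
      · rw [hc0 a (Nat.not_odd_iff_even.1 hodd)]
        simp
    refine h2.trans ?_
    rw [← Finset.sum_mul, hW]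
    nlinarith
  have hsec : 1 - 2 * ε₁ - 4 * (1 / M + η) ≤ avr (fun z => pe A c (Real.cos (θ * S z)) ^ 2) := by
    have h1 := small_cos S θ η J hch hη0.le M hM1 (by omega)
    have h2 : avr (fun z => 1 - 2 * ε₁ - (if |Real.cos (θ * S z)| ≤ 1 / (2 * M) then (1:ℝ) else 0))
        ≤ avr (fun z => pe A c (Real.cos (θ * S z)) ^ 2) := by
      refine avr_mono fun z => ?_
      split_ifs with h
      · have : 0 ≤ pe A c (Real.cos (θ * S z)) ^ 2 := sq_nonneg _
        linarith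
      · push Not at h
        have h3 := hc2 (Real.cos (θ * S z)) h.le (Real.abs_cos_le_one _)
        have h4 : (1 - ε₁) ^ 2 ≤ pe A c (Real.cos (θ * S z)) ^ 2 := by
          rw [← sq_abs (pe A c (Real.cos (θ * S z)))]
          exact pow_le_pow_left₀ (by rw [hε₁]; linarith) h3 2
        nlinarith
    rw [avr_sub, avr_const] at h2
    linarith
  have e2 : ∀ z : Fin q → Ω, pe A c (TE e θ (8 * q + (8 + K)) (∑ j, f j (z j)))
      = pe A c (TE e θ (8 * q + (8 + K)) (S z)) := fun z => by rw [hS]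
  constructor
  · rw [avr_congr e2]
    have h1 : |avr (fun z => pe A c (TE e θ (8 * q + (8 + K)) (S z)))
        - avr (fun z => pe A c (Real.cos (θ * S z)))| ≤ ε₁ := by
      rw [← avr_sub, abs_le]
      constructor
      · rw [← avr_const (Ω := Fin q → Ω) (-ε₁)]
        exact avr_mono fun z => (abs_le.1 (hF z)).1
      · rw [← avr_const (Ω := Fin q → Ω) ε₁]
        rw [avr_const]
        calc _ ≤ avr (fun _ : Fin q → Ω => ε₁) := avr_mono fun z => (abs_le.1 (hF z)).2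
          _ = ε₁ := avr_const _
    have h2 := abs_sub_abs_le_abs_sub (avr (fun z => pe A c (TE e θ (8 * q + (8 + K)) (S z))))
      (avr (fun z => pe A c (Real.cos (θ * S z))))
    have h3 : |avr (fun z => pe A c (TE e θ (8 * q + (8 + K)) (S z)))| ≤ ε₁ + W * η := by linarith
    calc _ ≤ ε₁ + W * η := h3
      _ ≤ ε / 16 + ε / 64 := by rw [hε₁]; linarith
      _ < ε := by linarith
  · have e3 : ∀ z : Fin q → Ω, pe A c (TE e θ (8 * q + (8 + K)) (∑ j, f j (z j))) ^ 2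
        = pe A c (TE e θ (8 * q + (8 + K)) (S z)) ^ 2 := fun z => by rw [e2]
    rw [avr_congr e3]
    have h1 : avr (fun z => pe A c (Real.cos (θ * S z)) ^ 2 - 2 * ε₁)
        ≤ avr (fun z => pe A c (TE e θ (8 * q + (8 + K)) (S z)) ^ 2) := by
      refine avr_mono fun z => ?_
      have h2 := abs_le.1 (hF z)
      have h3 := abs_le.1 (hc1 _ (hTE q (S z) (hSq z)).1)
      have h4 := abs_le.1 (hc1 (Real.cos (θ * S z)) (Real.abs_cos_le_one _))
      set a := pe A c (TE e θ (8 * q + (8 + K)) (S z))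
      set b := pe A c (Real.cos (θ * S z))
      nlinarith [mul_nonneg (sub_nonneg.2 h3.2) (sub_nonneg.2 h4.2),
        abs_le.1 (show |(a - b) * (a + b)| ≤ ε₁ * 2 by
          rw [abs_mul]
          apply mul_le_mul (hF z) _ (abs_nonneg _) hε₁0.le
          rw [abs_le]; constructor <;> linarith)]
    rw [avr_sub, avr_const] at h1
    have h5 : 1 - 2 * ε₁ - 4 * (1 / M + η) - 2 * ε₁ ≤
        avr (fun z => pe A c (TE e θ (8 * q + (8 + K)) (S z)) ^ 2) := by linarith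
    refine lt_of_lt_of_le ?_ h5
    rw [hε₁]
    linarith

end Pool.Agent.TH275.AM
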