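import Pool.Agent.TH275.AM.Char

/-!
# A bounded polynomial of a sum of independent copies with a constant variance
-/

set_option autoImplicit false

namespace Pool.Agent.TH275.AM

open Finset Complex

variable {Ω : Type*} [Fintype Ω]

lemma ch_re (g : Ω → ℝ) (ξ : ℝ) : (ch g ξ).re = avr (fun x => Real.cos (ξ * g x)) := by
  rw [ch_eq]; simp

lemma exp_neg_three : Real.exp (-3) ≤ 1 / 8 := by
  have h : (2:ℝ) ≤ Real.exp 1 := by
    have := Real.add_one_le_exp (1:ℝ); linarith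
  rw [Real.exp_neg, ← one_div]
  have h3 : (8:ℝ) ≤ Real.exp 3 := by
    have e : Real.exp 3 = Real.exp 1 ^ 3 := by rw [← Real.exp_nat_mul]; norm_num
    rw [e]
    calc (8:ℝ) = 2 ^ 3 := by norm_num
      _ ≤ Real.exp 1 ^ 3 := by gcongr
  exact one_div_le_one_div_of_le (by norm_num) h3

/-- The characteristic function of the sum of `q` independent bounded functions. -/
lemma ch_copies [Nonempty Ω] {q : ℕ} (f : Fin q → Ω → ℝ) (hf : ∀ j x, |f j x| ≤ 1) (v : ℝ)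
    (hv : ∀ j, v ≤ vr (f j)) (ξ : ℝ) (hξ : |ξ| ≤ 1) :
    ‖ch (fun z : Fin q → Ω => ∑ j, f j (z j)) ξ‖ ≤ Real.exp (-(ξ ^ 2 * (q * v) / 5)) := by
  have h0 : ch (fun z : Fin q → Ω => ∑ j, f j (z j)) ξ = ∏ j, ch (f j) ξ := by
    have h1 := ch_sum f (fun _ => (1:ℝ)) ξ
    simp only [one_mul, mul_one] at h1
    exact h1
  rw [h0, norm_prod]
  calc ∏ j, ‖ch (f j) ξ‖ ≤ ∏ _j : Fin q, Real.exp (-(ξ ^ 2 * v / 5)) := by
        refine Finset.prod_le_prod (fun _ _ => norm_nonneg _) fun j _ => ?_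
        refine (norm_ch_le _ (hf j) ξ hξ).trans (Real.exp_le_exp.2 ?_)
        have := mul_le_mul_of_nonneg_left (hv j) (sq_nonneg ξ)
        linarith
    _ = _ := by
        rw [Finset.prod_const, Finset.card_univ, Fintype.card_fin, ← Real.exp_nat_mul]
        congr 1; ring

lemma var_of_ch [Nonempty Ω] (S : Ω → ℝ) (R : ℝ) (hSq : ∀ z, |S z| ≤ R)
    (hc1 : ‖ch S (1 / 2)‖ ≤ 1 / 8) (hc2 : ‖ch S 1‖ ≤ 1 / 8) (Tn : ℝ → ℝ)
    (hT : ∀ s : ℝ, |s| ≤ R → |101 / 100 * Tn s - Real.cos (s / 2)| ≤ 1 / 100) :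
    1 / 6 ≤ vr (fun z => Tn (S z)) := by
  obtain ⟨c, hc⟩ : ∃ c : Ω → ℝ, ∀ z, c z = Real.cos (S z / 2) := ⟨_, fun _ => rfl⟩
  obtain ⟨Y, hY⟩ : ∃ Y : Ω → ℝ, ∀ z, Y z = 101 / 100 * Tn (S z) := ⟨_, fun _ => rfl⟩
  have hYc : ∀ z, |Y z - c z| ≤ 1 / 100 := fun z => by rw [hY, hc]; exact hT _ (hSq z)
  have h1 : |avr c| ≤ 1 / 8 := by
    have e : avr c = (ch S (1 / 2)).re := by
      rw [ch_re]
      refine avr_congr fun z => ?_
      rw [hc]; congr 1; ring
    rw [e]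
    exact (Complex.abs_re_le_norm _).trans hc1
  have h2 : |avr (fun z => Real.cos (1 * S z))| ≤ 1 / 8 := by
    rw [← ch_re]
    exact (Complex.abs_re_le_norm _).trans hc2
  have h3 : avr (fun z => c z ^ 2) = 1 / 2 + 1 / 2 * avr (fun z => Real.cos (1 * S z)) := by
    have e0 : ∀ z, c z ^ 2 = 1 / 2 + 1 / 2 * Real.cos (1 * S z) := by
      intro z
      have := Real.cos_sq (S z / 2)
      rw [hc, this]
      have e : 2 * (S z / 2) = 1 * S z := by ring
      rw [e]; ring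
    rw [avr_congr e0, avr_add, avr_const, avr_mul_left]
  have h4 : 27 / 64 ≤ vr c := by
    unfold vr
    rw [h3]
    have h5 := (abs_le.1 h2).1
    have h6 : avr c ^ 2 ≤ (1 / 8) ^ 2 := by
      rw [← sq_abs]; exact pow_le_pow_left₀ (abs_nonneg _) h1 2
    nlinarith
  -- compare with `Y`
  have e1 : avr (fun z => (c z - avr Y) ^ 2) = vr c + (avr c - avr Y) ^ 2 := by
    have e : ∀ z, (c z - avr Y) ^ 2 = c z ^ 2 + avr Y ^ 2 - (2 * avr Y) * c z := fun z => by ring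
    rw [avr_congr e, avr_sub, avr_add, avr_const, avr_mul_left]
    unfold vr; ring
  have e2 : avr (fun z => (Y z - avr Y) ^ 2) = vr Y := by
    have e : ∀ z, (Y z - avr Y) ^ 2 = Y z ^ 2 + avr Y ^ 2 - (2 * avr Y) * Y z := fun z => by ring
    rw [avr_congr e, avr_sub, avr_add, avr_const, avr_mul_left]
    unfold vr; ring
  have h5 : vr c ≤ 2 * vr Y + 2 * (1 / 100) ^ 2 := by
    have e3 : avr (fun z => (c z - avr Y) ^ 2)
        ≤ avr (fun z => 2 * (Y z - avr Y) ^ 2 + 2 * (1 / 100) ^ 2) := by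
      refine avr_mono fun z => ?_
      have h6 : (Y z - c z) ^ 2 ≤ (1 / 100) ^ 2 := by
        rw [← sq_abs]; exact pow_le_pow_left₀ (abs_nonneg _) (hYc z) 2
      nlinarith [sq_nonneg (Y z - avr Y + (Y z - c z))]
    rw [avr_add, avr_const, avr_mul_left, e2] at e3
    have h7 : 0 ≤ (avr c - avr Y) ^ 2 := sq_nonneg _
    linarith
  have h6 : vr Y = (101 / 100) ^ 2 * vr (fun z => Tn (S z)) := by
    have e3 : avr Y = 101 / 100 * avr (fun z => Tn (S z)) := by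
      rw [avr_congr hY, avr_mul_left]
    have e4 : avr (fun z => Y z ^ 2) = (101 / 100) ^ 2 * avr (fun z => Tn (S z) ^ 2) := by
      have e : ∀ z, Y z ^ 2 = (101 / 100) ^ 2 * Tn (S z) ^ 2 := fun z => by rw [hY]; ring
      rw [avr_congr e, avr_mul_left]
    unfold vr
    rw [e3, e4]; ring
  rw [h6] at h5
  linarith

/-- If `Tn` is within `1/100` of a rescaled cosine then `Tn` of the sum has variance `≥ 1/6`. -/
theorem block_var [Nonempty Ω] {q : ℕ} (f : Fin q → Ω → ℝ) (hf : ∀ j x, |f j x| ≤ 1) (v : ℝ)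
    (hv : ∀ j, v ≤ vr (f j)) (hq : 60 ≤ q * v) (Tn : ℝ → ℝ)
    (hT : ∀ s : ℝ, |s| ≤ q → |101 / 100 * Tn s - Real.cos (s / 2)| ≤ 1 / 100) :
    1 / 6 ≤ vr (fun z : Fin q → Ω => Tn (∑ j, f j (z j))) := by
  refine var_of_ch (fun z : Fin q → Ω => ∑ j, f j (z j)) q ?_ ?_ ?_ Tn hT
  · intro z
    refine (Finset.abs_sum_le_sum_abs _ _).trans ?_
    calc ∑ j, |f j (z j)| ≤ ∑ _j : Fin q, (1:ℝ) := Finset.sum_le_sum fun j _ => hf j _
      _ = q := by simp
  · refine (ch_copies f hf v hv (1 / 2) (by norm_num [abs_of_pos])).trans ?_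
    refine le_trans (Real.exp_le_exp.2 ?_) exp_neg_three
    linarith
  · refine (ch_copies f hf v hv 1 (by norm_num)).trans ?_
    refine le_trans (Real.exp_le_exp.2 ?_) exp_neg_three
    linarith

end Pool.Agent.TH275.AM
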