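import Mathlib

/-!
# Characteristic functions of bounded functions on finite probability spaces
-/

set_option autoImplicit false

namespace Pool.Agent.TH275.AM

open Finset Complex

variable {Ω : Type*} [Fintype Ω]

/-- Complex average. -/
noncomputable def av (g : Ω → ℂ) : ℂ := (∑ x, g x) / (Fintype.card Ω : ℂ)

/-- Real average. -/
noncomputable def avr (g : Ω → ℝ) : ℝ := (∑ x, g x) / (Fintype.card Ω : ℝ)

/-- Variance. -/
noncomputable def vr (g : Ω → ℝ) : ℝ := avr (fun x => g x ^ 2) - (avr g) ^ 2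

/-- Characteristic function. -/
noncomputable def ch (g : Ω → ℝ) (ξ : ℝ) : ℂ :=
  av (fun x => Complex.exp (((ξ * g x : ℝ) : ℂ) * I))

lemma avr_mono {g h : Ω → ℝ} (H : ∀ x, g x ≤ h x) : avr g ≤ avr h := by
  unfold avr
  gcongr with x _
  exact H x

lemma avr_nonneg {g : Ω → ℝ} (H : ∀ x, 0 ≤ g x) : 0 ≤ avr g := by
  unfold avr
  have := Finset.sum_nonneg fun x (_ : x ∈ Finset.univ) => H x
  positivity

lemma avr_const [Nonempty Ω] (c : ℝ) : avr (fun _ : Ω => c) = c := by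
  unfold avr
  rw [Finset.sum_const, Finset.card_univ, nsmul_eq_mul]
  have : (Fintype.card Ω : ℝ) ≠ 0 := by exact_mod_cast Fintype.card_ne_zero
  field_simp

lemma avr_add (g h : Ω → ℝ) : avr (fun x => g x + h x) = avr g + avr h := by
  unfold avr; rw [Finset.sum_add_distrib, add_div]

lemma avr_sub (g h : Ω → ℝ) : avr (fun x => g x - h x) = avr g - avr h := by
  unfold avr; rw [Finset.sum_sub_distrib, sub_div]

lemma avr_mul_left (c : ℝ) (g : Ω → ℝ) : avr (fun x => c * g x) = c * avr g := by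
  unfold avr; rw [← Finset.mul_sum, mul_div_assoc]

lemma avr_congr {g h : Ω → ℝ} (H : ∀ x, g x = h x) : avr g = avr h := by
  unfold avr; rw [Finset.sum_congr rfl fun x _ => H x]

lemma avr_swap {Ω' : Type*} [Fintype Ω'] (F : Ω → Ω' → ℝ) :
    avr (fun x => avr (fun y => F x y)) = avr (fun y => avr (fun x => F x y)) := by
  unfold avr
  simp only [← Finset.sum_div]
  rw [Finset.sum_comm]
  ring

lemma vr_eq (g : Ω → ℝ) [Nonempty Ω] :
    avr (fun x => avr (fun y => (g x - g y) ^ 2)) = 2 * vr g := by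
  have h1 : ∀ x, avr (fun y => (g x - g y) ^ 2)
      = g x ^ 2 + avr (fun y => g y ^ 2) - (2 * avr g) * g x := by
    intro x
    have e : ∀ y, (g x - g y) ^ 2 = g x ^ 2 + g y ^ 2 - (2 * g x) * g y := fun y => by ring
    rw [avr_congr e, avr_sub, avr_add, avr_const, avr_mul_left]; ring
  rw [avr_congr h1, avr_sub, avr_add, avr_const, avr_mul_left]
  unfold vr; ring

lemma vr_nonneg (g : Ω → ℝ) [Nonempty Ω] : 0 ≤ vr g := by
  have h := vr_eq g
  have : 0 ≤ avr (fun x => avr (fun y => (g x - g y) ^ 2)) :=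
    avr_nonneg fun x => avr_nonneg fun y => sq_nonneg _
  linarith

lemma ch_eq (g : Ω → ℝ) (ξ : ℝ) :
    ch g ξ = (avr (fun x => Real.cos (ξ * g x)) : ℂ) + (avr (fun x => Real.sin (ξ * g x)) : ℂ) * I := by
  unfold ch av avr
  push_cast
  rw [div_mul_eq_mul_div, ← add_div, Finset.sum_mul, ← Finset.sum_add_distrib]
  congr 1
  refine Finset.sum_congr rfl fun x _ => ?_
  rw [Complex.exp_mul_I]

lemma ch_zero (g : Ω → ℝ) [Nonempty Ω] : ch g 0 = 1 := by
  rw [ch_eq]
  simp [avr_const]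

lemma norm_ch_sq (g : Ω → ℝ) (ξ : ℝ) :
    ‖ch g ξ‖ ^ 2 = avr (fun x => avr (fun y => Real.cos (ξ * (g x - g y)))) := by
  rw [ch_eq, ← Complex.normSq_eq_norm_sq, Complex.normSq_add_mul_I]
  have h1 : ∀ x, avr (fun y => Real.cos (ξ * (g x - g y)))
      = avr (fun y => Real.cos (ξ * g y)) * Real.cos (ξ * g x)
        + avr (fun y => Real.sin (ξ * g y)) * Real.sin (ξ * g x) := by
    intro x
    have e : ∀ y, Real.cos (ξ * (g x - g y))
        = Real.cos (ξ * g x) * Real.cos (ξ * g y) + Real.sin (ξ * g x) * Real.sin (ξ * g y) := by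
      intro y; rw [mul_sub, Real.cos_sub]
    rw [avr_congr e, avr_add, avr_mul_left, avr_mul_left]; ring
  rw [avr_congr h1, avr_add, avr_mul_left, avr_mul_left]; ring

lemma norm_ch_le_one (g : Ω → ℝ) [Nonempty Ω] (ξ : ℝ) : ‖ch g ξ‖ ≤ 1 := by
  have h : ‖ch g ξ‖ ^ 2 ≤ 1 := by
    rw [norm_ch_sq]
    calc avr (fun x => avr (fun y => Real.cos (ξ * (g x - g y))))
        ≤ avr (fun _ : Ω => avr (fun _ : Ω => (1:ℝ))) :=
          avr_mono fun x => avr_mono fun y => Real.cos_le_one _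
      _ = 1 := by rw [avr_const, avr_const]
  nlinarith [norm_nonneg (ch g ξ)]

lemma norm_ch_neg (g : Ω → ℝ) (ξ : ℝ) : ‖ch g (-ξ)‖ = ‖ch g ξ‖ := by
  have h : ‖ch g (-ξ)‖ ^ 2 = ‖ch g ξ‖ ^ 2 := by
    rw [norm_ch_sq, norm_ch_sq]
    refine avr_congr fun x => avr_congr fun y => ?_
    rw [neg_mul, Real.cos_neg]
  exact (sq_eq_sq₀ (norm_nonneg _) (norm_nonneg _)).1 h

/-- Decay of the characteristic function at bounded frequencies. -/
lemma norm_ch_le (g : Ω → ℝ) [Nonempty Ω] (hg : ∀ x, |g x| ≤ 1) (ξ : ℝ) (hξ : |ξ| ≤ 1) :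
    ‖ch g ξ‖ ≤ Real.exp (-(ξ ^ 2 * vr g / 5)) := by
  have hpi := Real.pi_pos
  have hpi3 : Real.pi < 3.15 := Real.pi_lt_d2
  have h1 : ‖ch g ξ‖ ^ 2 ≤ 1 - 2 / 5 * ξ ^ 2 * vr g := by
    rw [norm_ch_sq]
    have e : 1 - 2 / 5 * ξ ^ 2 * vr g
        = avr (fun x : Ω => avr (fun y : Ω => 1 - (1 / 5 * ξ ^ 2) * (g x - g y) ^ 2)) := by
      have e1 : ∀ x : Ω, avr (fun y : Ω => 1 - (1 / 5 * ξ ^ 2) * (g x - g y) ^ 2)
          = 1 - (1 / 5 * ξ ^ 2) * avr (fun y => (g x - g y) ^ 2) := by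
        intro x; rw [avr_sub, avr_const, avr_mul_left]
      rw [avr_congr e1, avr_sub, avr_const, avr_mul_left, vr_eq]; ring
    rw [e]
    refine avr_mono fun x => avr_mono fun y => ?_
    have hxy : |ξ * (g x - g y)| ≤ 2 := by
      rw [abs_mul]
      have h2 : |g x - g y| ≤ 2 := by
        have := abs_sub (g x) (g y)
        have := hg x; have := hg y; linarith
      calc |ξ| * |g x - g y| ≤ 1 * 2 := by
            apply mul_le_mul hξ h2 (abs_nonneg _) zero_le_one
        _ = 2 := by norm_num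
    have h3 := Real.cos_le_one_sub_mul_cos_sq (x := ξ * (g x - g y))
      (hxy.trans (by linarith [Real.pi_gt_three]))
    have h4 : (1:ℝ) / 5 ≤ 2 / Real.pi ^ 2 := by
      rw [div_le_div_iff₀ (by norm_num) (by positivity)]
      nlinarith
    have h5 : 0 ≤ (ξ * (g x - g y)) ^ 2 := sq_nonneg _
    have h6 := mul_le_mul_of_nonneg_right h4 h5
    calc Real.cos (ξ * (g x - g y)) ≤ 1 - 2 / Real.pi ^ 2 * (ξ * (g x - g y)) ^ 2 := h3
      _ ≤ 1 - 1 / 5 * (ξ * (g x - g y)) ^ 2 := by linarith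
      _ = 1 - (1 / 5 * ξ ^ 2) * (g x - g y) ^ 2 := by ring
  have h2 : 1 - 2 / 5 * ξ ^ 2 * vr g ≤ Real.exp (-(2 / 5 * ξ ^ 2 * vr g)) := by
    have := Real.add_one_le_exp (-(2 / 5 * ξ ^ 2 * vr g))
    linarith
  have h3 : Real.exp (-(2 / 5 * ξ ^ 2 * vr g)) = Real.exp (-(ξ ^ 2 * vr g / 5)) ^ 2 := by
    rw [← Real.exp_nat_mul]; congr 1; push_cast; ring
  rw [h3] at h2
  exact (sq_le_sq₀ (norm_nonneg _) (Real.exp_pos _).le).1 (h1.trans h2)

/-- Independence. -/
lemma av_prod {B : Type*} [Fintype B] [DecidableEq B] (h : B → Ω → ℂ) :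
    av (fun x : B → Ω => ∏ b, h b (x b)) = ∏ b, av (h b) := by
  unfold av
  rw [Finset.prod_div_distrib, Finset.prod_univ_sum, Finset.prod_const, Finset.card_univ,
    Fintype.piFinset_univ, Fintype.card_fun]
  push_cast
  rfl

lemma ch_sum {B : Type*} [Fintype B] [DecidableEq B] (g : B → Ω → ℝ) (c : B → ℝ) (ξ : ℝ) :
    ch (fun x : B → Ω => ∑ b, c b * g b (x b)) ξ = ∏ b, ch (g b) (ξ * c b) := by
  unfold ch
  rw [← av_prod]
  congr 1
  funext x
  rw [← Complex.exp_sum]
  congr 1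
  rw [Finset.mul_sum]
  push_cast
  rw [Finset.sum_mul]
  refine Finset.sum_congr rfl fun b _ => ?_
  ring

/-- Small intervals have small probability when the characteristic function is summable. -/
lemma atom_bound (g : Ω → ℝ) [Nonempty Ω] (M : ℕ) (hM : 1 ≤ M) (t ℓ : ℝ) (hℓ : ℓ ≤ 1 / M) :
    avr (fun x => if |g x - t| ≤ ℓ then (1:ℝ) else 0)
      ≤ 8 / M * ∑ k ∈ Finset.range M, ‖ch g k‖ := by
  have hM0 : (0:ℝ) < M := by exact_mod_cast hM
  -- the kernel
  have hker : ∀ u : ℝ, |u| ≤ 1 / M →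
      (M:ℝ) / 2 ≤ ‖∑ k ∈ Finset.range M, Complex.exp (((k * u : ℝ) : ℂ) * I)‖ := by
    intro u hu
    have h1 : (∑ k ∈ Finset.range M, Complex.exp (((k * u : ℝ) : ℂ) * I)).re
        = ∑ k ∈ Finset.range M, Real.cos (k * u) := by
      rw [Complex.re_sum]
      refine Finset.sum_congr rfl fun k _ => ?_
      rw [Complex.exp_ofReal_mul_I_re]
    have h2 : (M:ℝ) / 2 ≤ ∑ k ∈ Finset.range M, Real.cos (k * u) := by
      calc (M:ℝ) / 2 = ∑ k ∈ Finset.range M, (1 / 2 : ℝ) := by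
            rw [Finset.sum_const, Finset.card_range, nsmul_eq_mul]; ring
        _ ≤ _ := by
          refine Finset.sum_le_sum fun k hk => ?_
          have hk : (k:ℝ) ≤ M := by exact_mod_cast (Finset.mem_range.1 hk).le
          have h3 : |(k:ℝ) * u| ≤ 1 := by
            rw [abs_mul, abs_of_nonneg (Nat.cast_nonneg k)]
            calc (k:ℝ) * |u| ≤ M * (1 / M) := by
                  apply mul_le_mul hk hu (abs_nonneg _) hM0.le
              _ = 1 := by field_simp
          have h4 := Real.one_sub_sq_div_two_le_cos (x := (k:ℝ) * u)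
          have h5 : ((k:ℝ) * u) ^ 2 ≤ 1 := by
            rw [← sq_abs]; exact pow_le_one₀ (abs_nonneg _) h3
          linarith
    rw [← h1] at h2
    exact h2.trans (Complex.re_le_norm _)
  -- pointwise bound
  have hpt : ∀ x : Ω, (if |g x - t| ≤ ℓ then (1:ℝ) else 0)
      ≤ 4 / (M:ℝ) ^ 2 * (∑ k ∈ Finset.range M, ∑ l ∈ Finset.range M,
          Real.cos (((k:ℝ) - l) * (g x - t))) := by
    intro x
    have hn : ∑ k ∈ Finset.range M, ∑ l ∈ Finset.range M, Real.cos (((k:ℝ) - l) * (g x - t))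
        = ‖∑ k ∈ Finset.range M, Complex.exp (((k * (g x - t) : ℝ) : ℂ) * I)‖ ^ 2 := by
      set u := g x - t with hu
      have e1 : ∑ k ∈ Finset.range M, Complex.exp (((k * u : ℝ) : ℂ) * I)
          = ((∑ k ∈ Finset.range M, Real.cos (k * u) : ℝ) : ℂ)
            + ((∑ k ∈ Finset.range M, Real.sin (k * u) : ℝ) : ℂ) * I := by
        push_cast
        rw [Finset.sum_mul, ← Finset.sum_add_distrib]
        refine Finset.sum_congr rfl fun k _ => ?_
        rw [Complex.exp_mul_I]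
      rw [e1, ← Complex.normSq_eq_norm_sq, Complex.normSq_add_mul_I, sq, sq, Finset.sum_mul_sum,
        Finset.sum_mul_sum, ← Finset.sum_add_distrib]
      refine Finset.sum_congr rfl fun k _ => ?_
      rw [← Finset.sum_add_distrib]
      refine Finset.sum_congr rfl fun l _ => ?_
      rw [sub_mul, Real.cos_sub]
    rw [hn]
    split_ifs with h
    · have h1 := hker _ (h.trans hℓ)
      have h2 : ((M:ℝ) / 2) ^ 2
          ≤ ‖∑ k ∈ Finset.range M, Complex.exp (((k * (g x - t) : ℝ) : ℂ) * I)‖ ^ 2 :=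
        pow_le_pow_left₀ (by positivity) h1 2
      calc (1:ℝ) = 4 / (M:ℝ) ^ 2 * ((M:ℝ) / 2) ^ 2 := by field_simp; norm_num
        _ ≤ _ := by gcongr
    · positivity
  refine (avr_mono hpt).trans ?_
  rw [avr_mul_left]
  -- averages of cosines
  have hcos : ∀ k l : ℕ, avr (fun x => Real.cos (((k:ℝ) - l) * (g x - t)))
      ≤ ‖ch g ((k:ℝ) - l)‖ := by
    intro k l
    have h1 : (Complex.exp (((-(((k:ℝ) - l) * t) : ℝ) : ℂ) * I) * ch g ((k:ℝ) - l)).re
        = avr (fun x => Real.cos (((k:ℝ) - l) * (g x - t))) := by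
      unfold ch av avr
      rw [mul_div_assoc', Finset.mul_sum, ← Complex.ofReal_natCast, Complex.div_ofReal_re,
        Complex.re_sum]
      congr 1
      refine Finset.sum_congr rfl fun x _ => ?_
      rw [← Complex.exp_add, ← add_mul, ← Complex.ofReal_add, Complex.exp_ofReal_mul_I_re]
      congr 1; ring
    rw [← h1]
    refine (Complex.re_le_norm _).trans ?_
    rw [norm_mul, Complex.norm_exp_ofReal_mul_I, one_mul]
  have hsum : avr (fun x => ∑ k ∈ Finset.range M, ∑ l ∈ Finset.range M,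
      Real.cos (((k:ℝ) - l) * (g x - t)))
      = ∑ k ∈ Finset.range M, ∑ l ∈ Finset.range M,
        avr (fun x => Real.cos (((k:ℝ) - l) * (g x - t))) := by
    unfold avr
    rw [Finset.sum_comm, Finset.sum_div]
    refine Finset.sum_congr rfl fun k _ => ?_
    rw [Finset.sum_comm, Finset.sum_div]
  rw [hsum]
  set Sg := ∑ k ∈ Finset.range M, ‖ch g k‖ with hS
  have hrow : ∀ k ∈ Finset.range M, ∑ l ∈ Finset.range M, ‖ch g ((k:ℝ) - l)‖ ≤ 2 * Sg := by
    intro k hk
    have hk' := Finset.mem_range.1 hk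
    have h1 : ∑ l ∈ Finset.range M, ‖ch g ((k:ℝ) - l)‖
        = ∑ l ∈ (Finset.range M).filter (fun l => l ≤ k), ‖ch g ((k:ℝ) - l)‖
          + ∑ l ∈ (Finset.range M).filter (fun l => ¬ l ≤ k), ‖ch g ((k:ℝ) - l)‖ :=
      (Finset.sum_filter_add_sum_filter_not _ _ _).symm
    have h2 : ∑ l ∈ (Finset.range M).filter (fun l => l ≤ k), ‖ch g ((k:ℝ) - l)‖ ≤ Sg := by
      have e : ∀ l ∈ (Finset.range M).filter (fun l => l ≤ k),
          ‖ch g ((k:ℝ) - l)‖ = ‖ch g ((k - l : ℕ) : ℝ)‖ := by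
        intro l hl
        rw [Nat.cast_sub (Finset.mem_filter.1 hl).2]
      rw [Finset.sum_congr rfl e]
      have hinj : Set.InjOn (fun l => k - l) ((Finset.range M).filter (fun l => l ≤ k) : Set ℕ) := by
        intro a ha b hb hab
        simp only [Finset.coe_filter, Finset.mem_range, Set.mem_ofPred_eq] at ha hb
        have : k - a = k - b := hab
        omega
      rw [← Finset.sum_image (f := fun j : ℕ => ‖ch g (j : ℝ)‖) hinj]
      refine Finset.sum_le_sum_of_subset_of_nonneg ?_ fun _ _ _ => norm_nonneg _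
      intro j hj
      obtain ⟨l, hl, rfl⟩ := Finset.mem_image.1 hj
      rw [Finset.mem_range]
      omega
    have h3 : ∑ l ∈ (Finset.range M).filter (fun l => ¬ l ≤ k), ‖ch g ((k:ℝ) - l)‖ ≤ Sg := by
      have e : ∀ l ∈ (Finset.range M).filter (fun l => ¬ l ≤ k),
          ‖ch g ((k:ℝ) - l)‖ = ‖ch g ((l - k : ℕ) : ℝ)‖ := by
        intro l hl
        have hl' := (Finset.mem_filter.1 hl).2
        rw [Nat.cast_sub (by omega), ← norm_ch_neg]
        congr 2; ring
      rw [Finset.sum_congr rfl e]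
      have hinj : Set.InjOn (fun l => l - k) ((Finset.range M).filter (fun l => ¬ l ≤ k) : Set ℕ) := by
        intro a ha b hb hab
        simp only [Finset.coe_filter, Finset.mem_range, Set.mem_ofPred_eq] at ha hb
        have : a - k = b - k := hab
        omega
      rw [← Finset.sum_image (f := fun j : ℕ => ‖ch g (j : ℝ)‖) hinj]
      refine Finset.sum_le_sum_of_subset_of_nonneg ?_ fun _ _ _ => norm_nonneg _
      intro j hj
      obtain ⟨l, hl, rfl⟩ := Finset.mem_image.1 hj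
      have hl' := Finset.mem_filter.1 hl
      have := Finset.mem_range.1 hl'.1
      rw [Finset.mem_range]
      omega
    linarith
  have htot : ∑ k ∈ Finset.range M, ∑ l ∈ Finset.range M,
      avr (fun x => Real.cos (((k:ℝ) - l) * (g x - t))) ≤ M * (2 * Sg) := by
    calc _ ≤ ∑ k ∈ Finset.range M, ∑ l ∈ Finset.range M, ‖ch g ((k:ℝ) - l)‖ :=
          Finset.sum_le_sum fun k _ => Finset.sum_le_sum fun l _ => hcos k l
      _ ≤ ∑ k ∈ Finset.range M, (2 * Sg) := Finset.sum_le_sum hrow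
      _ = M * (2 * Sg) := by rw [Finset.sum_const, Finset.card_range, nsmul_eq_mul]
  calc 4 / (M:ℝ) ^ 2 * _ ≤ 4 / (M:ℝ) ^ 2 * (M * (2 * Sg)) := by gcongr
    _ = 8 / M * Sg := by field_simp; ring

end Pool.Agent.TH275.AM
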