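import Pool.Agent.TH275.AM.Block

/-!
# A sum of many independent bounded functions is equidistributed modulo its period
-/

set_option autoImplicit false

namespace Pool.Agent.TH275.AM

open Finset Complex

variable {Ω : Type*} [Fintype Ω]

lemma avr_cos_le (S : Ω → ℝ) (θ η : ℝ) (J : ℕ)
    (hch : ∀ k : ℕ, 1 ≤ k → k ≤ J → ‖ch S (k * θ)‖ ≤ η) (k : ℤ) (hk0 : k ≠ 0)
    (hk : |k| ≤ J) : |avr (fun z => Real.cos (k * θ * S z))| ≤ η := by
  obtain ⟨m, hm | hm⟩ := Int.eq_nat_or_neg k
  · have h1 : 1 ≤ m := by omega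
    have h2 : m ≤ J := by
      rw [hm] at hk
      have : |(m:ℤ)| = m := abs_of_nonneg (by positivity)
      omega
    have e : avr (fun z => Real.cos (k * θ * S z)) = (ch S (m * θ)).re := by
      rw [ch_re, hm]; push_cast; rfl
    rw [e]
    exact (Complex.abs_re_le_norm _).trans (hch m h1 h2)
  · have h1 : 1 ≤ m := by omega
    have h2 : m ≤ J := by
      rw [hm, abs_neg] at hk
      have : |(m:ℤ)| = m := abs_of_nonneg (by positivity)
      omega
    have e : avr (fun z => Real.cos (k * θ * S z)) = (ch S (m * θ)).re := by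
      rw [ch_re, hm]
      refine avr_congr fun z => ?_
      push_cast
      rw [← Real.cos_neg]; congr 1; ring
    rw [e]
    exact (Complex.abs_re_le_norm _).trans (hch m h1 h2)

/-- Odd trigonometric moments are small. -/
lemma avr_cos_pow (S : Ω → ℝ) (θ η : ℝ) (J : ℕ)
    (hch : ∀ k : ℕ, 1 ≤ k → k ≤ J → ‖ch S (k * θ)‖ ≤ η) :
    ∀ (a : ℕ) (k : ℤ), (a : ℤ) + |k| ≤ J → Odd ((a : ℤ) + k) →
      |avr (fun z => Real.cos (θ * S z) ^ a * Real.cos (k * θ * S z))| ≤ η := by
  intro a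
  induction a with
  | zero =>
    intro k hk hodd
    have hk0 : k ≠ 0 := by
      rintro rfl
      simp at hodd
    have := avr_cos_le S θ η J hch k hk0 (by simpa using hk)
    simpa using this
  | succ a ih =>
    intro k hk hodd
    have e : ∀ z, Real.cos (θ * S z) ^ (a + 1) * Real.cos (k * θ * S z)
        = 1 / 2 * (Real.cos (θ * S z) ^ a * Real.cos (((k + 1 : ℤ) : ℝ) * θ * S z))
          + 1 / 2 * (Real.cos (θ * S z) ^ a * Real.cos (((k - 1 : ℤ) : ℝ) * θ * S z)) := by
      intro z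
      have h1 : ((k + 1 : ℤ) : ℝ) * θ * S z = k * θ * S z + θ * S z := by push_cast; ring
      have h2 : ((k - 1 : ℤ) : ℝ) * θ * S z = k * θ * S z - θ * S z := by push_cast; ring
      rw [h1, h2, Real.cos_add, Real.cos_sub]; ring
    rw [avr_congr e, avr_add, avr_mul_left, avr_mul_left]
    have h1 := ih (k + 1) (by
      have := abs_add_le k 1
      rw [abs_one] at this
      push_cast at hk; omega) (by
      push_cast at hodd
      have e2 : (a:ℤ) + (k + 1) = (a:ℤ) + 1 + k := by ring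
      rw [e2]; exact hodd)
    have h2 := ih (k - 1) (by
      have := abs_sub k 1
      rw [abs_one] at this
      push_cast at hk; omega) (by
      push_cast at hodd
      have e2 : (a:ℤ) + (k - 1) = (a:ℤ) + 1 + k - 2 := by ring
      rw [e2]
      exact hodd.sub_even (by decide))
    rw [abs_le] at h1 h2 ⊢
    constructor <;> linarith [h1.1, h1.2, h2.1, h2.2]

/-- The probability that the cosine is small. -/
lemma small_cos [Nonempty Ω] (S : Ω → ℝ) (θ η : ℝ) (J : ℕ)
    (hch : ∀ k : ℕ, 1 ≤ k → k ≤ J → ‖ch S (k * θ)‖ ≤ η) (hη : 0 ≤ η) (M : ℕ) (hM : 1 ≤ M)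
    (hMJ : 2 * M ≤ J) :
    avr (fun z => if |Real.cos (θ * S z)| ≤ 1 / (2 * M) then (1:ℝ) else 0) ≤ 4 * (1 / M + η) := by
  have hM0 : (0:ℝ) < M := by exact_mod_cast hM
  -- the kernel
  have hker : ∀ φ : ℝ, |Real.cos φ| ≤ 1 / (2 * M) →
      (M:ℝ) / 2 ≤ ‖∑ k ∈ Finset.range M, (-Complex.exp ((2 * φ : ℝ) * I)) ^ k‖ := by
    intro φ hφ
    set w : ℂ := -Complex.exp ((2 * φ : ℝ) * I) with hw
    have hw1 : ‖w‖ = 1 := by
      rw [hw, norm_neg, Complex.norm_exp_ofReal_mul_I]
    have hw2 : ‖w - 1‖ = 2 * |Real.cos φ| := by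
      have e : w - 1 = -(Complex.exp ((φ : ℝ) * I) * (2 * (Real.cos φ : ℂ))) := by
        rw [hw, Complex.ofReal_cos, Complex.two_cos]
        have e1 : Complex.exp ((2 * φ : ℝ) * I) = Complex.exp (φ * I) * Complex.exp (φ * I) := by
          rw [← Complex.exp_add]; congr 1; push_cast; ring
        have e2 : Complex.exp (φ * I) * Complex.exp (-φ * I) = 1 := by
          rw [← Complex.exp_add]; simp
        rw [e1, mul_add, e2]; ring
      rw [e, norm_neg, norm_mul, Complex.norm_exp_ofReal_mul_I, one_mul, norm_mul,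
        Complex.norm_real, Real.norm_eq_abs]
      norm_num
    have hpow : ∀ k : ℕ, ‖w ^ k - 1‖ ≤ k * (2 * |Real.cos φ|) := by
      intro k
      induction k with
      | zero => simp
      | succ k ih =>
        have e : w ^ (k + 1) - 1 = w * (w ^ k - 1) + (w - 1) := by ring
        rw [e]
        refine (norm_add_le _ _).trans ?_
        rw [norm_mul, hw1, one_mul, hw2]
        push_cast
        linarith
    have h1 : ‖∑ k ∈ Finset.range M, w ^ k - M‖ ≤ M / 2 := by
      have e : ∑ k ∈ Finset.range M, w ^ k - M = ∑ k ∈ Finset.range M, (w ^ k - 1) := by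
        rw [Finset.sum_sub_distrib]; simp
      rw [e]
      refine (norm_sum_le _ _).trans ?_
      calc ∑ k ∈ Finset.range M, ‖w ^ k - 1‖ ≤ ∑ k ∈ Finset.range M, (1 / 2 : ℝ) * (2 * k / M) := by
            refine Finset.sum_le_sum fun k _ => (hpow k).trans ?_
            have h2 : (k:ℝ) * (2 * |Real.cos φ|) ≤ k * (2 * (1 / (2 * M))) := by gcongr
            refine h2.trans (le_of_eq ?_)
            field_simp
        _ ≤ M / 2 := by
            have hs : ∑ k ∈ Finset.range M, (1 / 2 : ℝ) * (2 * k / M)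
                = (1 / M) * ∑ k ∈ Finset.range M, (k:ℝ) := by
              rw [Finset.mul_sum]
              refine Finset.sum_congr rfl fun k _ => ?_
              ring
            rw [hs]
            have hg : (∑ k ∈ Finset.range M, (k:ℝ)) * 2 = M * (M - 1) := by
              have := Finset.sum_range_id_mul_two M
              have h3 : ((∑ k ∈ Finset.range M, k : ℕ) : ℝ) * 2 = ((M * (M - 1) : ℕ) : ℝ) := by
                exact_mod_cast this
              rw [Nat.cast_mul, Nat.cast_sub hM] at h3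
              push_cast at h3
              exact h3
            have hg2 : (∑ k ∈ Finset.range M, (k:ℝ)) ≤ M ^ 2 / 2 := by nlinarith
            calc (1 / M : ℝ) * ∑ k ∈ Finset.range M, (k:ℝ) ≤ (1 / M) * (M ^ 2 / 2) := by gcongr
              _ = M / 2 := by field_simp
    have h2 : (M:ℝ) = ‖(M:ℂ)‖ := by simp
    have h3 : ‖(M:ℂ)‖ ≤ ‖∑ k ∈ Finset.range M, w ^ k‖ + ‖∑ k ∈ Finset.range M, w ^ k - M‖ := by
      have := norm_sub_norm_le (M:ℂ) (M - ∑ k ∈ Finset.range M, w ^ k)
      have h4 : (M:ℂ) - (M - ∑ k ∈ Finset.range M, w ^ k) = ∑ k ∈ Finset.range M, w ^ k := by ring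
      rw [h4, norm_sub_rev (M:ℂ)] at this
      linarith
    rw [← h2] at h3
    linarith
  -- the square of the kernel
  have hsq : ∀ φ : ℝ, ‖∑ k ∈ Finset.range M, (-Complex.exp ((2 * φ : ℝ) * I)) ^ k‖ ^ 2
      = ∑ k ∈ Finset.range M, ∑ l ∈ Finset.range M,
          (-1 : ℝ) ^ (k + l) * Real.cos (((2 * (k - l) : ℤ) : ℝ) * φ) := by
    intro φ
    have e1 : ∑ k ∈ Finset.range M, (-Complex.exp ((2 * φ : ℝ) * I)) ^ k
        = ((∑ k ∈ Finset.range M, (-1 : ℝ) ^ k * Real.cos (2 * k * φ) : ℝ) : ℂ)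
          + ((∑ k ∈ Finset.range M, (-1 : ℝ) ^ k * Real.sin (2 * k * φ) : ℝ) : ℂ) * I := by
      push_cast
      rw [Finset.sum_mul, ← Finset.sum_add_distrib]
      refine Finset.sum_congr rfl fun k _ => ?_
      rw [neg_pow, ← Complex.exp_nat_mul]
      have e2 : (k:ℂ) * ((2 * (φ:ℂ)) * I) = (2 * (k:ℂ) * (φ:ℂ)) * I := by ring
      rw [e2, Complex.exp_mul_I]; ring
    rw [e1, ← Complex.normSq_eq_norm_sq, Complex.normSq_add_mul_I, sq, sq, Finset.sum_mul_sum,
      Finset.sum_mul_sum, ← Finset.sum_add_distrib]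
    refine Finset.sum_congr rfl fun k _ => ?_
    rw [← Finset.sum_add_distrib]
    refine Finset.sum_congr rfl fun l _ => ?_
    have e3 : ((2 * (k - l) : ℤ) : ℝ) * φ = 2 * k * φ - 2 * l * φ := by push_cast; ring
    rw [e3, Real.cos_sub, pow_add]; ring
  have hpt : ∀ z : Ω, (if |Real.cos (θ * S z)| ≤ 1 / (2 * M) then (1:ℝ) else 0)
      ≤ 4 / (M:ℝ) ^ 2 * (∑ k ∈ Finset.range M, ∑ l ∈ Finset.range M,
          (-1 : ℝ) ^ (k + l) * Real.cos (((2 * (k - l) : ℤ) : ℝ) * (θ * S z))) := by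
    intro z
    rw [← hsq]
    split_ifs with h
    · have h1 := hker _ h
      have h2 : ((M:ℝ) / 2) ^ 2
          ≤ ‖∑ k ∈ Finset.range M, (-Complex.exp ((2 * (θ * S z) : ℝ) * I)) ^ k‖ ^ 2 :=
        pow_le_pow_left₀ (by positivity) h1 2
      calc (1:ℝ) = 4 / (M:ℝ) ^ 2 * ((M:ℝ) / 2) ^ 2 := by field_simp; norm_num
        _ ≤ _ := by gcongr
    · positivity
  refine (avr_mono hpt).trans ?_
  rw [avr_mul_left]
  have hsum : avr (fun z => ∑ k ∈ Finset.range M, ∑ l ∈ Finset.range M,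
      (-1 : ℝ) ^ (k + l) * Real.cos (((2 * (k - l) : ℤ) : ℝ) * (θ * S z)))
      = ∑ k ∈ Finset.range M, ∑ l ∈ Finset.range M,
        avr (fun z => (-1 : ℝ) ^ (k + l) * Real.cos (((2 * (k - l) : ℤ) : ℝ) * (θ * S z))) := by
    unfold avr
    rw [Finset.sum_comm, Finset.sum_div]
    refine Finset.sum_congr rfl fun k _ => ?_
    rw [Finset.sum_comm, Finset.sum_div]
  rw [hsum]
  have hterm : ∀ k ∈ Finset.range M, ∀ l ∈ Finset.range M,
      avr (fun z => (-1 : ℝ) ^ (k + l) * Real.cos (((2 * (k - l) : ℤ) : ℝ) * (θ * S z)))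
        ≤ (if k = l then (1:ℝ) else 0) + η := by
    intro k hk l hl
    rw [Finset.mem_range] at hk hl
    rw [avr_mul_left]
    refine (le_abs_self _).trans ?_
    rw [abs_mul, abs_pow, abs_neg, abs_one, one_pow, one_mul]
    by_cases hkl : k = l
    · rw [if_pos hkl]
      have : ∀ z, Real.cos (((2 * (k - l) : ℤ) : ℝ) * (θ * S z)) = 1 := by
        intro z
        rw [hkl]; simp
      rw [avr_congr this, avr_const, abs_one]
      linarith
    · rw [if_neg hkl, zero_add]
      have e : ∀ z, Real.cos (((2 * (k - l) : ℤ) : ℝ) * (θ * S z))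
          = Real.cos (((2 * (k - l) : ℤ) : ℝ) * θ * S z) := fun z => by rw [mul_assoc]
      rw [avr_congr e]
      refine avr_cos_le S θ η J hch (2 * (k - l)) (by omega) ?_
      rw [abs_mul]
      have h5 : |(k:ℤ) - l| ≤ M := by
        rw [abs_le]; omega
      have : |(2:ℤ)| = 2 := rfl
      rw [this]
      omega
  calc 4 / (M:ℝ) ^ 2 * ∑ k ∈ Finset.range M, ∑ l ∈ Finset.range M,
        avr (fun z => (-1 : ℝ) ^ (k + l) * Real.cos (((2 * (k - l) : ℤ) : ℝ) * (θ * S z)))
      ≤ 4 / (M:ℝ) ^ 2 * ∑ k ∈ Finset.range M, ∑ l ∈ Finset.range M,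
        ((if k = l then (1:ℝ) else 0) + η) := by
        gcongr with k hk l hl
        exact hterm k hk l hl
    _ = 4 / (M:ℝ) ^ 2 * (M + M * (M * η)) := by
        congr 1
        rw [Finset.sum_congr rfl fun k hk => (show ∑ l ∈ Finset.range M,
          ((if k = l then (1:ℝ) else 0) + η) = 1 + M * η from ?_)]
        · rw [Finset.sum_const, Finset.card_range, nsmul_eq_mul]; ring
        · rw [Finset.sum_add_distrib, Finset.sum_ite_eq, if_pos hk, Finset.sum_const,
            Finset.card_range, nsmul_eq_mul]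
    _ = 4 * (1 / M + η) := by field_simp

end Pool.Agent.TH275.AM
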