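import Pool.Agent.H746R2.AA.Deg
import Pool.Agent.H746R2.AA.Avg

/-!
# Degrees of polynomials of copies of a function
-/

set_option autoImplicit false
set_option linter.unusedSectionVars false

namespace Pool.Agent.TH275.AM

open Finset Pool.Agent.H722R2.AA Pool.Agent.H746R2.AA

/-- Coefficients on the Boolean cube. -/
lemma fc_bool {N : ℕ} (p : (Fin N → Bool) → ℝ) (S : Finset (Fin N)) :
    fc (fun y : Fin N → ℤˣ => p (bx y)) S
      = (∑ x, p x * ∏ i ∈ S, (-1 : ℝ) ^ (x i).toNat) / 2 ^ N := by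
  rw [fc_eq_Ex, ← Ex_bx (fun x => p x * ∏ i ∈ S, (-1 : ℝ) ^ (x i).toNat)]
  refine Ex_congr fun y => ?_
  congr 1
  refine Finset.prod_congr rfl fun i _ => ?_
  unfold sg bx
  rcases Int.units_eq_one_or (y i) with h | h
  · rw [h]; simp
  · rw [h]; simp

/-- Degree at most `d` on the Boolean cube. -/
def BDeg {N : ℕ} (d : ℕ) (f : (Fin N → Bool) → ℝ) : Prop :=
  ∀ S : Finset (Fin N), d < S.card → ∑ x, f x * ∏ i ∈ S, (-1 : ℝ) ^ (x i).toNat = 0

lemma bdeg_iff {N : ℕ} (d : ℕ) (f : (Fin N → Bool) → ℝ) :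
    BDeg d f ↔ Deg d (fun y : Fin N → ℤˣ => f (bx y)) := by
  unfold BDeg Deg
  refine forall_congr' fun S => forall_congr' fun hS => ?_
  rw [fc_bool]
  constructor
  · intro h; rw [h, zero_div]
  · intro h
    have : (2:ℝ) ^ N ≠ 0 := by positivity
    exact (div_eq_zero_iff.1 h).resolve_right this

lemma Deg.pull {n N : ℕ} {r : ℕ} {g : (Fin n → ℤˣ) → ℝ} (hg : Deg r g) (ψ : Fin n → Fin N) :
    Deg r (fun y : Fin N → ℤˣ => g (fun i => y (ψ i))) := by
  have e : (fun y : Fin N → ℤˣ => g (fun i => y (ψ i)))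
      = fun y => ∑ T : Finset (Fin n), fc g T * ∏ i ∈ T, sg y (ψ i) := by
    funext y
    rw [← ml_fc g (fun i => y (ψ i))]
    rfl
  rw [e]
  refine Deg.sum _ _ fun T _ => ?_
  rcases lt_or_ge r T.card with h | h
  · have h0 : fc g T = 0 := hg T h
    rw [h0]
    simp only [zero_mul]
    intro S hS
    unfold fc
    simp
  · refine Deg.mul_left _ (Deg.mono (Finset.card_image_le.trans h) (Deg.junta (C := T.image ψ) ?_))
    intro x y hxy
    refine Finset.prod_congr rfl fun i hi => ?_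
    unfold sg
    rw [hxy _ (Finset.mem_image_of_mem ψ hi)]

lemma Deg.one {N : ℕ} (r : ℕ) : Deg r (fun _ : Fin N → ℤˣ => (1:ℝ)) := by
  have h := Deg.junta (C := (∅ : Finset (Fin N))) (J := fun _ => (1:ℝ)) (fun _ _ _ => rfl)
  exact Deg.mono (by simp) h

lemma Deg.pow {N : ℕ} {r : ℕ} {g : (Fin N → ℤˣ) → ℝ} (hg : Deg r g) :
    ∀ m : ℕ, Deg (m * r) (fun y => g y ^ m) := by
  intro m
  induction m with
  | zero => simpa using Deg.one (N := N) (0 * r)
  | succ m ih =>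
    have h := Deg.mul ih hg
    have e : (fun y => g y ^ (m + 1)) = fun y => g y ^ m * g y := by
      funext y; rw [pow_succ]
    rw [e, Nat.succ_mul]
    exact h

lemma Deg.poly {N : ℕ} {r : ℕ} {g : (Fin N → ℤˣ) → ℝ} (hg : Deg r g) (n : ℕ) (c : ℕ → ℝ) :
    Deg (n * r) (fun y => ∑ m ∈ Finset.range n, c m * g y ^ m) := by
  refine Deg.sum _ _ fun m hm => Deg.mul_left _ (Deg.mono ?_ (Deg.pow hg m))
  exact Nat.mul_le_mul_right r (Finset.mem_range.1 hm).le

/-- The degree of a weighted sum of polynomials of sums of copies. -/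
theorem bdeg_copies {B : Type*} [Fintype B] {q n N : ℕ} (d : ℕ) (f : (Fin n → Bool) → ℝ)
    (hf : BDeg d f) (ψ : B → Fin q → Fin n → Fin N) (w : B → ℝ) (K : ℕ) (c : ℕ → ℝ) :
    BDeg (K * d) (fun y : Fin N → Bool =>
      ∑ b, w b * ∑ m ∈ Finset.range K, c m * (∑ j, f (fun i => y (ψ b j i))) ^ m) := by
  rw [bdeg_iff] at hf ⊢
  refine Deg.sum _ _ fun b _ => Deg.mul_left _ (Deg.poly ?_ K c)
  exact Deg.sum _ _ fun j _ => Deg.pull hf (ψ b j)

end Pool.Agent.TH275.AM
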