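import Pool.Agent.TH275.AM.Scales
import Pool.Agent.TH275.AM.Block
import Pool.Agent.TH275.AM.Taylor
import Pool.Agent.TH275.AM.DegT

/-!
# A low degree polynomial of copies with a bounded density on all small subcubes
-/

set_option autoImplicit false

namespace Pool.Agent.TH275.AM

open Finset

variable {n : ℕ}

/-- The index set of the variables. -/
abbrev VI (L q n : ℕ) : Type := BI L × Fin q × Fin n

/-- Their number. -/
noncomputable abbrev NV (L q n : ℕ) : ℕ := Fintype.card (VI L q n)

/-- Numbering of the variables. -/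
noncomputable def eqv (L q n : ℕ) : VI L q n ≃ Fin (NV L q n) := Fintype.equivFin _

/-- The cube as a product. -/
noncomputable def cubeEquiv (L q n : ℕ) :
    (Fin (NV L q n) → Bool) ≃ (BI L → Fin q → Fin n → Bool) where
  toFun y := fun b j i => y (eqv L q n (b, j, i))
  invFun x := fun k => x ((eqv L q n).symm k).1 ((eqv L q n).symm k).2.1 ((eqv L q n).symm k).2.2
  left_inv y := by
    funext k
    show y (eqv L q n ((eqv L q n).symm k)) = y k
    rw [Equiv.apply_symm_apply]
  right_inv x := by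
    funext b j i
    simp

/-- The polynomial. -/
noncomputable def FF (L q : ℕ) (f : (Fin n → Bool) → ℝ) (y : Fin (NV L q n) → Bool) : ℝ :=
  ∑ b : BI L, wt b * TT (8 * q + 8) (∑ j : Fin q, f (fun i => y (eqv L q n (b, j, i))))

lemma abs_sum_le_q {q : ℕ} (u : Fin q → ℝ) (hu : ∀ j, |u j| ≤ 1) : |∑ j, u j| ≤ q := by
  refine (Finset.abs_sum_le_sum_abs _ _).trans ?_
  calc ∑ j, |u j| ≤ ∑ _j : Fin q, (1:ℝ) := Finset.sum_le_sum fun j _ => hu j
    _ = q := by simp

lemma abs_FF_le (L q : ℕ) (f : (Fin n → Bool) → ℝ) (hf : ∀ x, |f x| ≤ 1)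
    (y : Fin (NV L q n) → Bool) : |FF L q f y| ≤ 1 := by
  unfold FF
  refine (Finset.abs_sum_le_sum_abs _ _).trans (le_trans ?_ (sum_wt_le L))
  refine Finset.sum_le_sum fun b _ => ?_
  rw [abs_mul, abs_of_nonneg (wt_nonneg b)]
  exact mul_le_of_le_one_right (wt_nonneg b) (TT_abs q _ (abs_sum_le_q _ fun j => hf _))

lemma bdeg_FF (L q : ℕ) (f : (Fin n → Bool) → ℝ) (d : ℕ) (hd : BDeg d f) :
    BDeg ((8 * q + 8) * d) (FF L q f) := by
  have h := bdeg_copies d f hd (fun (b : BI L) (j : Fin q) (i : Fin n) => eqv L q n (b, j, i))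
    (fun b => wt b * (100 / 101)) (8 * q + 8) tc
  have e : FF L q f = (fun y : Fin (NV L q n) → Bool =>
      ∑ b : BI L, wt b * (100 / 101) * ∑ m ∈ Finset.range (8 * q + 8),
        tc m * (∑ j, f (fun i => y (eqv L q n (b, j, i)))) ^ m) := by
    funext y
    unfold FF TT
    refine Finset.sum_congr rfl fun b _ => ?_
    ring
  rw [e]
  exact h

/-- The restriction of a point to a subcube. -/
def mx {N : ℕ} (S : Finset (Fin N)) (a x : Fin N → Bool) : Fin N → Bool :=
  fun i => if i ∈ S then a i else x i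

lemma avr_cube (L q : ℕ) (Φ : (BI L → Fin q → Fin n → Bool) → ℝ) :
    avr (fun y : Fin (NV L q n) → Bool => Φ (cubeEquiv L q n y)) = avr Φ := by
  unfold avr
  rw [Fintype.card_congr (cubeEquiv L q n), Equiv.sum_comp (cubeEquiv L q n) Φ]

/-- The law of the polynomial has density at most `10000` above the scale `δ` on every subcube
whose codimension does not allow to lower the variance of `f` below `v`. -/
theorem FF_density (L q : ℕ) (f : (Fin n → Bool) → ℝ) (hf : ∀ x, |f x| ≤ 1) (v : ℝ)
    (hq : 60 ≤ q * v) (δ : ℝ) (hδ : 0 < δ) (hL : 1 / δ ≤ 480 * 2 ^ L)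
    (S : Finset (Fin (NV L q n))) (a : Fin (NV L q n) → Bool)
    (hv : ∀ (S' : Finset (Fin n)) (a' : Fin n → Bool), S'.card ≤ S.card →
      v ≤ vr (fun x => f (mx S' a' x))) (t ℓ : ℝ) (hℓ : δ ≤ ℓ) :
    avr (fun y => if |FF L q f (mx S a y) - t| ≤ ℓ then (1:ℝ) else 0) < 20000 * ℓ := by
  classical
  let S' : BI L → Fin q → Finset (Fin n) := fun b j =>
    Finset.univ.filter (fun i => eqv L q n (b, j, i) ∈ S)
  let a' : BI L → Fin q → Fin n → Bool := fun b j i => a (eqv L q n (b, j, i))
  let g : BI L → Fin q → (Fin n → Bool) → ℝ := fun b j u => f (mx (S' b j) (a' b j) u)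
  let X : BI L → (Fin q → Fin n → Bool) → ℝ := fun b z => TT (8 * q + 8) (∑ j, g b j (z j))
  have hcard : ∀ b j, (S' b j).card ≤ S.card := by
    intro b j
    refine Finset.card_le_card_of_injOn (fun i => eqv L q n (b, j, i)) ?_ ?_
    · intro i hi
      have := (Finset.mem_filter.1 hi).2
      exact this
    · intro i _ i' _ h
      have h' := (eqv L q n).injective h
      simpa using h'
  have hX1 : ∀ b z, |X b z| ≤ 1 := fun b z =>
    TT_abs q _ (abs_sum_le_q _ fun j => hf _)
  have hX2 : ∀ b, 1 / 6 ≤ vr (X b) := by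
    intro b
    exact block_var (g b) (fun j x => hf _) v (fun j => hv _ _ (hcard b j)) hq (TT (8 * q + 8))
      (fun s hs => TT_near q s hs)
  have hmain := GG_density X hX1 hX2 δ hδ hL t ℓ hℓ
  have e : ∀ y : Fin (NV L q n) → Bool, FF L q f (mx S a y) = GG X (cubeEquiv L q n y) := by
    intro y
    unfold FF GG
    refine Finset.sum_congr rfl fun b _ => ?_
    show _ = wt b * TT (8 * q + 8) (∑ j, g b j (cubeEquiv L q n y b j))
    congr 3
    funext j
    show f _ = f _
    congr 1
    funext i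
    show mx S a y (eqv L q n (b, j, i)) = mx (S' b j) (a' b j) (cubeEquiv L q n y b j) i
    unfold mx
    have hi : (i ∈ S' b j) ↔ eqv L q n (b, j, i) ∈ S := by
      show i ∈ Finset.univ.filter (fun i => eqv L q n (b, j, i) ∈ S) ↔ _
      simp
    by_cases h : eqv L q n (b, j, i) ∈ S
    · rw [if_pos h, if_pos (hi.2 h)]
    · rw [if_neg h, if_neg (fun h' => h (hi.1 h'))]
      rfl
  simp only [e]
  have h2 := avr_cube (n := n) L q (fun x => if |GG X x - t| ≤ ℓ then (1:ℝ) else 0)
  rw [h2]
  exact hmain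

end Pool.Agent.TH275.AM
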