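import Pool.Agent.TH334.AA.Equiv
import Pool.Agent.TH275.AM.Family

/-!
# The cluster form of the Aaronson-Ambainis conjecture
-/

set_option autoImplicit false

namespace Pool.Agent.TH275.AM

open Finset Pool.Agent.H572R2 Pool.Agent.H572R4.QA Pool.Agent.TH334.AA

/-- On some small subcube some interval, not shorter than the prescribed scale, has probability at
least `10000` times its length. -/
def CL (δ : ℕ → ℝ) : Prop := ∃ C : ℕ, ∀ (N : ℕ) (f : (Fin N → Bool) → ℝ),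
  (∀ x, |f x| ≤ 1) → ∀ d : ℕ, 1 ≤ d → DegLe d f →
    ∃ (S : Finset (Fin N)) (a : Fin N → Bool) (t ℓ : ℝ), (S.card : ℝ) ≤ C * (d:ℝ) ^ C ∧
      δ d ≤ ℓ ∧ 20000 * ℓ ≤ EE (fun x => if |f (mix S a x) - t| ≤ ℓ then (1:ℝ) else 0)

variable {N : ℕ}

lemma EE_avr (g : (Fin N → Bool) → ℝ) : EE g = avr g := by
  unfold EE avr
  congr 1
  rw [Fintype.card_fun, Fintype.card_bool, Fintype.card_fin]
  push_cast
  rfl

lemma var_vr (g : (Fin N → Bool) → ℝ) : var g = vr g := by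
  unfold var vr
  rw [EE_avr, EE_avr]

lemma mix_mx (S : Finset (Fin N)) (a x : Fin N → Bool) : mix S a x = mx S a x := rfl

/-- Small variance gives a long interval of large probability. -/
lemma cheb (g : (Fin N → Bool) → ℝ) (ℓ κ : ℝ) (hℓ : 0 < ℓ) (hκ : κ ≤ ℓ ^ 2 / 2)
    (hv : var g ≤ κ) : 1 / 2 ≤ EE (fun x => if |g x - EE g| ≤ ℓ then (1:ℝ) else 0) := by
  have h1 : ∀ x, 1 - (g x - EE g) ^ 2 / ℓ ^ 2 ≤ if |g x - EE g| ≤ ℓ then (1:ℝ) else 0 := by
    intro x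
    split_ifs with h
    · have : 0 ≤ (g x - EE g) ^ 2 / ℓ ^ 2 := by positivity
      linarith
    · push Not at h
      have h2 : ℓ ^ 2 ≤ (g x - EE g) ^ 2 := by
        rw [← sq_abs (g x - EE g)]
        exact pow_le_pow_left₀ hℓ.le h.le 2
      have h3 : 1 ≤ (g x - EE g) ^ 2 / ℓ ^ 2 := by
        rw [le_div_iff₀ (by positivity)]; linarith
      linarith
  have h2 := EE_mono h1
  refine le_trans ?_ h2
  have h3 : EE (fun x => 1 - (g x - EE g) ^ 2 / ℓ ^ 2) = 1 - var g / ℓ ^ 2 := by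
    rw [EE_avr, EE_avr, var_vr]
    have e : ∀ x, 1 - (g x - avr g) ^ 2 / ℓ ^ 2
        = (1 - avr g ^ 2 / ℓ ^ 2) - (1 / ℓ ^ 2) * (g x ^ 2) + (2 * avr g / ℓ ^ 2) * g x := by
      intro x; ring
    rw [avr_congr e, avr_add, avr_sub, avr_const, avr_mul_left, avr_mul_left]
    unfold vr; ring
  rw [h3]
  have h4 : var g / ℓ ^ 2 ≤ 1 / 2 := by
    rw [div_le_iff₀ (by positivity)]
    linarith
  linarith

/-- The conjecture gives small subcubes with small variance. -/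
theorem small_var (h : P1) (κ : ℝ) (hκ : 0 < κ) : ∃ C : ℕ, ∀ (N : ℕ) (f : (Fin N → Bool) → ℝ),
    (∀ x, |f x| ≤ 1) → ∀ d : ℕ, 1 ≤ d → DegLe d f →
    ∃ (S : Finset (Fin N)) (a : Fin N → Bool), (S.card : ℝ) ≤ C * (d:ℝ) ^ C ∧
      var (fun x => f (mix S a x)) ≤ κ := by
  obtain ⟨c, M, hc, hAA⟩ := h
  obtain ⟨C0, hC0⟩ := exists_nat_ge (1 / (c * κ ^ M))
  refine ⟨max C0 (M + 1), ?_⟩
  intro N f hf d hd hdeg
  have hd1 : (1:ℝ) ≤ d := by exact_mod_cast hd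
  set τ : ℝ := c * (κ / d) ^ M with hτ
  have hτ0 : 0 < τ := by positivity
  set K : ℕ := ⌊(d:ℝ) / τ⌋₊ with hK
  by_contra hcon
  push Not at hcon
  have hKC : (K:ℝ) ≤ (max C0 (M + 1) : ℕ) * (d:ℝ) ^ (max C0 (M + 1)) := by
    have h1 : (K:ℝ) ≤ d / τ := Nat.floor_le (by positivity)
    have h2 : (d:ℝ) / τ = 1 / (c * κ ^ M) * (d:ℝ) ^ (M + 1) := by
      rw [hτ, div_pow]; field_simp; ring
    rw [h2] at h1
    refine h1.trans ?_
    have h3 : (C0:ℝ) ≤ (max C0 (M + 1) : ℕ) := by exact_mod_cast le_max_left _ _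
    have h4 : (d:ℝ) ^ (M + 1) ≤ (d:ℝ) ^ (max C0 (M + 1)) :=
      pow_le_pow_right₀ hd1 (le_max_right _ _)
    have h5 : 0 ≤ 1 / (c * κ ^ M) := by positivity
    exact mul_le_mul (hC0.trans h3) h4 (by positivity) (by positivity)
  have hno : ∀ (S : Finset (Fin N)) (a : Fin N → Bool), S.card ≤ K →
      κ < var (fun x => f (mix S a x)) := by
    intro S a hS
    refine hcon S a (le_trans ?_ hKC)
    exact_mod_cast hS
  have hnode : ∀ (S : Finset (Fin N)) (a : Fin N → Bool), κ < var (fun x => f (mix S a x)) →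
      ∃ i, i ∉ S ∧ τ ≤ Ex S a (JQ f i) := by
    intro S a hvar
    obtain ⟨j, hj⟩ := hAA N (fun x => f (mix S a x)) (fun x => hf _) d hd
      (degLe_mix d f hdeg S a) (hκ.trans hvar)
    have h1 : τ ≤ c * (var (fun x => f (mix S a x)) / d) ^ M := by
      rw [hτ]; gcongr
    by_cases hjS : j ∈ S
    · rw [inf1_mix_mem f S a j hjS] at hj
      exfalso; linarith
    · refine ⟨j, hjS, ?_⟩
      rw [inf1_mix_not_mem f S a j hjS] at hj
      linarith
  have h1 := tree_var f κ τ hnode K hno K ∅ (fun _ => true) (by simp)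
  rw [II_empty] at h1
  have h2 := sum_inf1_le d f hdeg
  have h3 := var_le_one f hf
  have h4 : (d:ℝ) / τ < K + 1 := Nat.lt_floor_add_one _
  rw [div_lt_iff₀ hτ0] at h4
  nlinarith

theorem p1_cl (δ : ℕ → ℝ) (hδ : ∀ d, δ d ≤ 1 / 40000) (h : P1) : CL δ := by
  obtain ⟨C, hC⟩ := small_var h ((1 / 40000) ^ 2 / 2) (by norm_num)
  refine ⟨C, ?_⟩
  intro N f hf d hd hdeg
  obtain ⟨S, a, h1, h2⟩ := hC N f hf d hd hdeg
  refine ⟨S, a, EE (fun x => f (mix S a x)), 1 / 40000, h1, hδ d, ?_⟩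
  have h3 := cheb (fun x => f (mix S a x)) (1 / 40000) _ (by norm_num) le_rfl h2
  calc (20000:ℝ) * (1 / 40000) = 1 / 2 := by norm_num
    _ ≤ _ := h3

theorem cl_p3 (δ : ℕ → ℝ) (hδ : ∀ d, 0 < δ d) (h : CL δ) : P3 := by
  obtain ⟨C, hC⟩ := h
  refine ⟨11 * C + 1, ?_⟩
  intro N f hf d hd hdeg hV
  obtain ⟨X, hX, hX2, hXp, hXd, hXV, hX1⟩ := X_facts f hf d hd hV
  have hX0 : 0 < X := by linarith
  have hd1 : (1:ℝ) ≤ d := by exact_mod_cast hd
  have hV1 := var_le_one f hf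
  by_contra hcon
  push Not at hcon
  rw [hXp, ← hX] at hcon
  set q : ℕ := ⌈120 / var f⌉₊ with hq
  have hq1 : 120 / var f ≤ q := Nat.le_ceil _
  have hq2 : (q:ℝ) ≤ 121 / var f := by
    have h1 : (q:ℝ) < 120 / var f + 1 := Nat.ceil_lt_add_one (by positivity)
    have h2 : 1 ≤ 1 / var f := by rw [le_div_iff₀ hV]; linarith
    have h3 : 121 / var f = 120 / var f + 1 / var f := by ring
    linarith
  have hqv : 60 ≤ (q:ℝ) * (var f / 2) := by
    have h1 := mul_le_mul_of_nonneg_right hq1 (show 0 ≤ var f / 2 by positivity)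
    have h2 : 120 / var f * (var f / 2) = 60 := by field_simp; norm_num
    linarith
  set D : ℕ := (8 * q + 8) * d with hD
  have hD1 : 1 ≤ D := by
    have : 1 ≤ 8 * q + 8 := by omega
    exact Nat.one_le_iff_ne_zero.2 (by positivity)
  have hDX : (D:ℝ) ≤ 512 * X := by
    have h1 : (D:ℝ) = (8 * q + 8) * d := by rw [hD]; push_cast; ring
    have h2 : (8:ℝ) * q + 8 ≤ 976 / var f := by
      have h3 : (8:ℝ) ≤ 8 / var f := by rw [le_div_iff₀ hV]; linarith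
      have h4 : 976 / var f = 8 * (121 / var f) + 8 / var f := by ring
      linarith
    rw [h1]
    calc ((8:ℝ) * q + 8) * d ≤ 976 / var f * d := by gcongr
      _ = 488 * X := by rw [hX]; ring
      _ ≤ 512 * X := by linarith
  have hCX : (C:ℝ) * (D:ℝ) ^ C ≤ X ^ (11 * C + 1) := by
    have h1 : (C:ℝ) ≤ X ^ C := by
      have h2 : (C:ℝ) ≤ 2 ^ C := by exact_mod_cast (Nat.lt_two_pow_self).le
      exact h2.trans (by gcongr)
    have h2 : (512:ℝ) ≤ X ^ 9 := by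
      calc (512:ℝ) = 2 ^ 9 := by norm_num
        _ ≤ X ^ 9 := by gcongr
    calc (C:ℝ) * (D:ℝ) ^ C ≤ X ^ C * (512 * X) ^ C := by gcongr
      _ ≤ X ^ C * (X ^ 9 * X) ^ C := by gcongr
      _ = X ^ (11 * C) := by ring
      _ ≤ X ^ (11 * C + 1) := pow_le_pow_right₀ (by linarith) (by omega)
  have hvar : ∀ (S' : Finset (Fin N)) (a' : Fin N → Bool), (S'.card : ℝ) ≤ X ^ (11 * C + 1) →
      var f / 2 ≤ vr (fun x => f (mx S' a' x)) := by
    intro S' a' hS'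
    have h1 := hcon S' a' hS'
    have h2 : |var (fun x => f (mix S' a' x)) - var f| < var f / 2 := by
      refine h1.trans_le (le_trans ?_ hX1)
      rw [div_le_div_iff₀ (by positivity) hX0]
      have : X ^ 1 ≤ X ^ (11 * C + 1) := pow_le_pow_right₀ (by linarith) (by omega)
      linarith
    have h3 := (abs_lt.1 h2).1
    have h4 : var (fun x => f (mix S' a' x)) = vr (fun x => f (mx S' a' x)) := var_vr _
    rw [h4] at h3
    linarith
  obtain ⟨L, hL⟩ : ∃ L : ℕ, 1 / δ D ≤ 480 * 2 ^ L := by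
    obtain ⟨L, hL⟩ := pow_unbounded_of_one_lt (1 / δ D) (by norm_num : (1:ℝ) < 2)
    refine ⟨L, hL.le.trans ?_⟩
    have : (0:ℝ) < 2 ^ L := by positivity
    linarith
  obtain ⟨S, a, t, ℓ, hS, hℓ, hbig⟩ := hC (NV L q N) (FF L q f) (abs_FF_le L q f hf) D hD1
    (bdeg_FF L q f d hdeg)
  have h1 := FF_density L q f hf (var f / 2) hqv (δ D) (hδ D) hL S a
    (fun S' a' hc => hvar S' a' (le_trans (by exact_mod_cast hc) (hS.trans hCX))) t ℓ hℓ
  rw [EE_avr] at hbig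
  exact absurd h1 (not_lt.2 hbig)

theorem cl_iff (δ : ℕ → ℝ) (hδ : ∀ d, 0 < δ d) (hδ' : ∀ d, δ d ≤ 1 / 40000) : P1 ↔ CL δ :=
  ⟨p1_cl δ hδ', fun h => p5_p1 (p3_p5 (cl_p3 δ hδ h))⟩

end Pool.Agent.TH275.AM
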