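import Pool.Agent.TH275.AM.Equiv
import Pool.Agent.TH275.AM.AlmostBool

/-!
# The almost Boolean form of the Aaronson-Ambainis conjecture
-/

set_option autoImplicit false

namespace Pool.Agent.TH275.AM

open Finset Pool.Agent.H572R2 Pool.Agent.H572R4.QA Pool.Agent.TH334.AA

/-- On some small subcube the mean is at least `ε` or the second moment is at most `1 - ε`. -/
def NB (ε : ℝ) : Prop := ∃ C : ℕ, ∀ (N : ℕ) (f : (Fin N → Bool) → ℝ),
  (∀ x, |f x| ≤ 1) → ∀ d : ℕ, 1 ≤ d → DegLe d f →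
    ∃ (S : Finset (Fin N)) (a : Fin N → Bool), (S.card : ℝ) ≤ C * (d:ℝ) ^ C ∧
      (ε ≤ |EE (fun x => f (mix S a x))| ∨ EE (fun x => f (mix S a x) ^ 2) ≤ 1 - ε)

theorem p1_nb (ε : ℝ) (h0 : 0 < ε) (hε : ε ≤ 1 / 2) (h : P1) : NB ε := by
  obtain ⟨C, hC⟩ := small_var h (1 / 4) (by norm_num)
  refine ⟨C, ?_⟩
  intro N f hf d hd hdeg
  obtain ⟨S, a, h1, h2⟩ := hC N f hf d hd hdeg
  refine ⟨S, a, h1, ?_⟩
  by_cases h3 : ε ≤ |EE (fun x => f (mix S a x))|
  · exact Or.inl h3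
  · right
    push Not at h3
    have h4 : EE (fun x => f (mix S a x)) ^ 2 ≤ ε ^ 2 := by
      rw [← sq_abs]; exact pow_le_pow_left₀ (abs_nonneg _) h3.le 2
    unfold var at h2
    nlinarith

/-- The cube as a product. -/
def cubeEquiv2 (q n : ℕ) : (Fin (q * n) → Bool) ≃ (Fin q → Fin n → Bool) where
  toFun y := fun j i => y (finProdFinEquiv (j, i))
  invFun x := fun k => x (finProdFinEquiv.symm k).1 (finProdFinEquiv.symm k).2
  left_inv y := by
    funext k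
    show y (finProdFinEquiv (finProdFinEquiv.symm k)) = y k
    rw [Equiv.apply_symm_apply]
  right_inv x := by
    funext j i
    show x (finProdFinEquiv.symm (finProdFinEquiv (j, i))).1
      (finProdFinEquiv.symm (finProdFinEquiv (j, i))).2 = x j i
    rw [Equiv.symm_apply_apply]

/-- The almost Boolean polynomial. -/
noncomputable def PF (A : ℕ) (c : ℕ → ℝ) (θ e : ℝ) (n₀ q : ℕ) {n : ℕ} (f : (Fin n → Bool) → ℝ)
    (y : Fin (q * n) → Bool) : ℝ :=
  pe A c (TE e θ (8 * q + n₀) (∑ j : Fin q, f (fun i => y (finProdFinEquiv (j, i)))))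

lemma bdeg_PF (A : ℕ) (c : ℕ → ℝ) (θ e : ℝ) (n₀ q : ℕ) {n : ℕ} (f : (Fin n → Bool) → ℝ) (d : ℕ)
    (hd : BDeg d f) : BDeg (A * ((8 * q + n₀) * d)) (PF A c θ e n₀ q f) := by
  rw [bdeg_iff] at hd ⊢
  unfold PF pe
  refine Deg.poly ?_ A c
  have e1 : (fun y : Fin (q * n) → ℤˣ => TE e θ (8 * q + n₀)
      (∑ j : Fin q, f (fun i => Pool.Agent.H746R2.AA.bx y (finProdFinEquiv (j, i)))))
      = fun y => ∑ m ∈ Finset.range (8 * q + n₀), (1 / (1 + e) * tc m * (2 * θ) ^ m)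
        * (∑ j : Fin q, f (fun i => Pool.Agent.H746R2.AA.bx y (finProdFinEquiv (j, i)))) ^ m := by
    funext y
    unfold TE
    rw [Finset.mul_sum]
    refine Finset.sum_congr rfl fun m _ => ?_
    rw [mul_pow]; ring
  rw [e1]
  refine Deg.poly ?_ (8 * q + n₀) _
  exact Pool.Agent.H746R2.AA.Deg.sum _ _ fun j _ => Deg.pull hd (fun i => finProdFinEquiv (j, i))

lemma PF_restrict (A : ℕ) (c : ℕ → ℝ) (θ e : ℝ) (n₀ q : ℕ) {n : ℕ} (f : (Fin n → Bool) → ℝ)
    (S : Finset (Fin (q * n))) (a : Fin (q * n) → Bool) (v : ℝ)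
    (hv : ∀ (S' : Finset (Fin n)) (a' : Fin n → Bool), S'.card ≤ S.card →
      v ≤ vr (fun x => f (mx S' a' x))) (hf : ∀ x, |f x| ≤ 1) :
    ∃ g : Fin q → (Fin n → Bool) → ℝ, (∀ j x, |g j x| ≤ 1) ∧ (∀ j, v ≤ vr (g j)) ∧
      ∀ y, PF A c θ e n₀ q f (mx S a y)
        = pe A c (TE e θ (8 * q + n₀) (∑ j, g j (cubeEquiv2 q n y j))) := by
  classical
  let S' : Fin q → Finset (Fin n) := fun j =>
    Finset.univ.filter (fun i => (finProdFinEquiv (j, i) : Fin (q * n)) ∈ S)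
  let a' : Fin q → Fin n → Bool := fun j i => a (finProdFinEquiv (j, i))
  have hcard : ∀ j, (S' j).card ≤ S.card := by
    intro j
    refine Finset.card_le_card_of_injOn (fun i => finProdFinEquiv (j, i)) ?_ ?_
    · intro i hi
      exact (Finset.mem_filter.1 hi).2
    · intro i _ i' _ h
      have h' := finProdFinEquiv.injective h
      simpa using h'
  refine ⟨fun j u => f (mx (S' j) (a' j) u), fun j x => hf _, fun j => hv _ _ (hcard j), ?_⟩
  intro y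
  unfold PF
  congr 2
  refine Finset.sum_congr rfl fun j _ => ?_
  congr 1
  funext i
  show mx S a y (finProdFinEquiv (j, i)) = mx (S' j) (a' j) (cubeEquiv2 q n y j) i
  unfold mx
  have hi : (i ∈ S' j) ↔ (finProdFinEquiv (j, i) : Fin (q * n)) ∈ S := by
    show i ∈ Finset.univ.filter (fun i => (finProdFinEquiv (j, i) : Fin (q * n)) ∈ S) ↔ _
    simp
  by_cases h : (finProdFinEquiv (j, i) : Fin (q * n)) ∈ S
  · rw [if_pos h, if_pos (hi.2 h)]
  · rw [if_neg h, if_neg (fun h' => h (hi.1 h'))]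
    rfl

lemma avr_cube2 (q n : ℕ) (Φ : (Fin q → Fin n → Bool) → ℝ) :
    avr (fun y : Fin (q * n) → Bool => Φ (cubeEquiv2 q n y)) = avr Φ := by
  unfold avr
  rw [Fintype.card_congr (cubeEquiv2 q n), Equiv.sum_comp (cubeEquiv2 q n) Φ]

theorem nb_p3 (ε : ℝ) (h0 : 0 < ε) (hε : ε ≤ 1 / 2) (h : NB ε) : P3 := by
  obtain ⟨C, hC⟩ := h
  obtain ⟨A, c, θ, e, n₀, Q₀, hQ₀, hP1, hP2⟩ := almost_bool ε h0 (by linarith)
  obtain ⟨Q, hQ⟩ := exists_nat_ge (2 * Q₀)
  obtain ⟨R, hR⟩ : ∃ R : ℕ, R = A * (8 * (Q + 1) + n₀) + 1 := ⟨_, rfl⟩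
  refine ⟨C + (R + 1) * C + 1, ?_⟩
  intro N f hf d hd hdeg hV
  obtain ⟨X, hX, hX2, hXp, hXd, hXV, hX1⟩ := X_facts f hf d hd hV
  have hX0 : 0 < X := by linarith
  have hd1 : (1:ℝ) ≤ d := by exact_mod_cast hd
  have hV1 := var_le_one f hf
  by_contra hcon
  push Not at hcon
  rw [hXp, ← hX] at hcon
  set q : ℕ := ⌈Q / var f⌉₊ with hq
  have hq1 : Q / var f ≤ q := Nat.le_ceil _
  have hq2 : (q:ℝ) ≤ (Q + 1) / var f := by
    have h1 : (q:ℝ) < Q / var f + 1 := Nat.ceil_lt_add_one (by positivity)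
    have h2 : 1 ≤ 1 / var f := by rw [le_div_iff₀ hV]; linarith
    have h3 : ((Q:ℝ) + 1) / var f = Q / var f + 1 / var f := by ring
    linarith
  have hqv : Q₀ ≤ (q:ℝ) * (var f / 2) := by
    have h1 := mul_le_mul_of_nonneg_right hq1 (show 0 ≤ var f / 2 by positivity)
    have h2 : Q / var f * (var f / 2) = Q / 2 := by field_simp
    linarith
  set D : ℕ := A * ((8 * q + n₀) * d) + 1 with hD
  have hDX : (D:ℝ) ≤ R * X := by
    have h1 : (D:ℝ) = A * ((8 * q + n₀) * d) + 1 := by rw [hD]; push_cast; ring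
    have h2 : (8:ℝ) * q + n₀ ≤ (8 * (Q + 1) + n₀) / var f := by
      have h3 : (n₀:ℝ) ≤ n₀ / var f := by
        rw [le_div_iff₀ hV]
        exact mul_le_of_le_one_right (Nat.cast_nonneg _) hV1
      have h4 : (8 * ((Q:ℝ) + 1) + n₀) / var f = 8 * ((Q + 1) / var f) + n₀ / var f := by ring
      linarith
    have h5 : (A:ℝ) * ((8 * q + n₀) * d) ≤ A * ((8 * (Q + 1) + n₀) / var f * d) := by gcongr
    have h6 : (A:ℝ) * ((8 * (Q + 1) + n₀) / var f * d) = A * (8 * (Q + 1) + n₀) * (X / 2) := by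
      rw [hX]; ring
    have h7 : (R:ℝ) = A * (8 * (Q + 1) + n₀) + 1 := by rw [hR]; push_cast; ring
    rw [h1, h7]
    have h8 : (0:ℝ) ≤ A * (8 * (Q + 1) + n₀) := by positivity
    nlinarith
  have hCX : (C:ℝ) * (D:ℝ) ^ C ≤ X ^ (C + (R + 1) * C + 1) := by
    have h1 : (C:ℝ) ≤ X ^ C := by
      have h2 : (C:ℝ) ≤ 2 ^ C := by exact_mod_cast (Nat.lt_two_pow_self).le
      exact h2.trans (by gcongr)
    have h2 : (R:ℝ) ≤ X ^ R := by
      have h2 : (R:ℝ) ≤ 2 ^ R := by exact_mod_cast (Nat.lt_two_pow_self).le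
      exact h2.trans (by gcongr)
    calc (C:ℝ) * (D:ℝ) ^ C ≤ X ^ C * (R * X) ^ C := by gcongr
      _ ≤ X ^ C * (X ^ R * X) ^ C := by gcongr
      _ = X ^ (C + (R + 1) * C) := by rw [← pow_succ, ← pow_mul, ← pow_add]
      _ ≤ X ^ (C + (R + 1) * C + 1) := pow_le_pow_right₀ (by linarith) (by omega)
  have hvar : ∀ (S' : Finset (Fin N)) (a' : Fin N → Bool),
      (S'.card : ℝ) ≤ X ^ (C + (R + 1) * C + 1) → var f / 2 ≤ vr (fun x => f (mx S' a' x)) := by
    intro S' a' hS'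
    have h1 := hcon S' a' hS'
    have h2 : |var (fun x => f (mix S' a' x)) - var f| < var f / 2 := by
      refine h1.trans_le (le_trans ?_ hX1)
      rw [div_le_div_iff₀ (by positivity) hX0]
      have : X ^ 1 ≤ X ^ (C + (R + 1) * C + 1) := pow_le_pow_right₀ (by linarith) (by omega)
      linarith
    have h3 := (abs_lt.1 h2).1
    have h4 : var (fun x => f (mix S' a' x)) = vr (fun x => f (mx S' a' x)) := var_vr _
    rw [h4] at h3
    linarith
  obtain ⟨S, a, hS, hbig⟩ := hC (q * N) (PF A c θ e n₀ q f)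
    (fun y => hP1 q _ (abs_sum_le_q _ fun j => hf _)) D (by omega)
    (fun T hT => bdeg_PF A c θ e n₀ q f d hdeg T (by omega))
  obtain ⟨g, hg1, hg2, hg3⟩ := PF_restrict A c θ e n₀ q f S a (var f / 2)
    (fun S' a' hc => hvar S' a' (le_trans (by exact_mod_cast hc) (hS.trans hCX))) hf
  obtain ⟨hm1, hm2⟩ := hP2 (Fin N → Bool) q g (var f / 2) hg1 hg2 hqv
  have e1 : EE (fun x => PF A c θ e n₀ q f (mix S a x))
      = avr (fun z : Fin q → Fin N → Bool => pe A c (TE e θ (8 * q + n₀) (∑ j, g j (z j)))) := by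
    rw [EE_avr, ← avr_cube2]
    exact avr_congr fun y => hg3 y
  have e2 : EE (fun x => PF A c θ e n₀ q f (mix S a x) ^ 2)
      = avr (fun z : Fin q → Fin N → Bool =>
        pe A c (TE e θ (8 * q + n₀) (∑ j, g j (z j))) ^ 2) := by
    rw [EE_avr, ← avr_cube2]
    refine avr_congr fun y => ?_
    have := hg3 y
    rw [mix_mx, this]
  rw [e1, e2] at hbig
  rcases hbig with h | h
  · linarith
  · linarith

theorem nb_iff (ε : ℝ) (h0 : 0 < ε) (hε : ε ≤ 1 / 2) : P1 ↔ NB ε :=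
  ⟨p1_nb ε h0 hε, fun h => p5_p1 (p3_p5 (nb_p3 ε h0 hε h))⟩

end Pool.Agent.TH275.AM
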