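import Pool.Agent.TH275.AM.Char

/-!
# Sums of independent copies at all scales have a bounded density
-/

set_option autoImplicit false

namespace Pool.Agent.TH275.AM

open Finset Complex

variable {Ω : Type*} [Fintype Ω]

/-- Index set of the copies: `240 (s + 1)` copies at scale `s`. -/
abbrev BI (L : ℕ) : Type := Σ s : Fin L, Fin (240 * (s.1 + 1))

/-- The weight of a copy. -/
noncomputable def wt {L : ℕ} (b : BI L) : ℝ := 1 / (480 * 2 ^ (b.1.1 + 1))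

lemma wt_nonneg {L : ℕ} (b : BI L) : 0 ≤ wt b := by unfold wt; positivity

lemma sum_wt_row (L : ℕ) (s : Fin L) : ∑ l : Fin (240 * (s.1 + 1)), wt (⟨s, l⟩ : BI L)
    = ((s.1:ℝ) + 1) / 2 ^ (s.1 + 2) := by
  have h : ∀ l : Fin (240 * (s.1 + 1)), wt (⟨s, l⟩ : BI L) = 1 / (480 * 2 ^ (s.1 + 1)) :=
    fun l => rfl
  rw [Finset.sum_congr rfl fun l _ => h l, Finset.sum_const, Finset.card_univ, Fintype.card_fin,
    nsmul_eq_mul]
  push_cast
  field_simp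
  ring

lemma sum_wt (L : ℕ) : ∑ b : BI L, wt b = 1 - (L + 2) / 2 ^ (L + 1) := by
  rw [Fintype.sum_sigma, Finset.sum_congr rfl fun s _ => sum_wt_row L s,
    Fin.sum_univ_eq_sum_range (fun s : ℕ => ((s:ℝ) + 1) / 2 ^ (s + 2))]
  induction L with
  | zero => norm_num
  | succ L ih =>
    rw [Finset.sum_range_succ, ih]
    push_cast
    field_simp
    ring

lemma sum_wt_le (L : ℕ) : ∑ b : BI L, wt b ≤ 1 := by
  rw [sum_wt]
  have : (0:ℝ) ≤ (L + 2) / 2 ^ (L + 1) := by positivity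
  linarith

/-- The weighted sum of the copies. -/
noncomputable def GG {L : ℕ} (X : BI L → Ω → ℝ) (x : BI L → Ω) : ℝ := ∑ b, wt b * X b (x b)

omit [Fintype Ω] in
lemma abs_GG_le {L : ℕ} (X : BI L → Ω → ℝ) (hX : ∀ b z, |X b z| ≤ 1) (x : BI L → Ω) :
    |GG X x| ≤ 1 := by
  unfold GG
  refine (Finset.abs_sum_le_sum_abs _ _).trans (le_trans ?_ (sum_wt_le L))
  refine Finset.sum_le_sum fun b _ => ?_
  rw [abs_mul, abs_of_nonneg (wt_nonneg b)]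
  exact mul_le_of_le_one_right (wt_nonneg b) (hX b _)

lemma exp_two : (4:ℝ) ≤ Real.exp 2 := by
  have h : (2:ℝ) ≤ Real.exp 1 := by
    have := Real.add_one_le_exp (1:ℝ); linarith
  have h2 : Real.exp 2 = Real.exp 1 * Real.exp 1 := by rw [← Real.exp_add]; norm_num
  rw [h2]; nlinarith

lemma ch_GG_le {L : ℕ} [Nonempty Ω] (X : BI L → Ω → ℝ) (hX : ∀ b z, |X b z| ≤ 1)
    (hv : ∀ b, 1 / 6 ≤ vr (X b)) (s : ℕ) (hs : s < L) (k : ℝ) (hk1 : 480 * 2 ^ s ≤ k)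
    (hk2 : k ≤ 480 * 2 ^ (s + 1)) : ‖ch (GG X) k‖ ≤ 1 / 4 ^ (s + 1) := by
  have h0 : ch (GG X) k = ∏ b, ch (X b) (k * wt b) := by
    unfold GG
    exact ch_sum X wt k
  rw [h0, norm_prod, Fintype.prod_sigma,
    ← Finset.mul_prod_erase Finset.univ _ (Finset.mem_univ (⟨s, hs⟩ : Fin L))]
  have h1 : ∏ l : Fin (240 * (s + 1)), ‖ch (X ⟨⟨s, hs⟩, l⟩) (k * wt (⟨⟨s, hs⟩, l⟩ : BI L))‖
      ≤ 1 / 4 ^ (s + 1) := by
    have h2 : ∀ l : Fin (240 * (s + 1)),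
        ‖ch (X ⟨⟨s, hs⟩, l⟩) (k * wt (⟨⟨s, hs⟩, l⟩ : BI L))‖ ≤ Real.exp (-(1 / 120)) := by
      intro l
      have e : k * wt (⟨⟨s, hs⟩, l⟩ : BI L) = k / (480 * 2 ^ (s + 1)) := by
        unfold wt; ring
      rw [e]
      have hp : (0:ℝ) < 480 * 2 ^ (s + 1) := by positivity
      have h3 : 1 / 2 ≤ k / (480 * 2 ^ (s + 1)) := by
        rw [le_div_iff₀ hp]
        have : (480:ℝ) * 2 ^ (s + 1) = 2 * (480 * 2 ^ s) := by ring
        linarith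
      have h4 : k / (480 * 2 ^ (s + 1)) ≤ 1 := by rw [div_le_one hp]; exact hk2
      refine (norm_ch_le _ (hX _) _ (by rw [abs_of_nonneg (by linarith)]; exact h4)).trans ?_
      apply Real.exp_le_exp.2
      have h5 := hv ⟨⟨s, hs⟩, l⟩
      have h6 : (1 / 4 : ℝ) ≤ (k / (480 * 2 ^ (s + 1))) ^ 2 := by nlinarith
      have h7 : (1 / 4 : ℝ) * (1 / 6) ≤ (k / (480 * 2 ^ (s + 1))) ^ 2 * vr (X ⟨⟨s, hs⟩, l⟩) := by
        apply mul_le_mul h6 h5 (by norm_num) (by positivity)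
      linarith
    calc ∏ l : Fin (240 * (s + 1)), ‖ch (X ⟨⟨s, hs⟩, l⟩) (k * wt (⟨⟨s, hs⟩, l⟩ : BI L))‖
        ≤ ∏ l : Fin (240 * (s + 1)), Real.exp (-(1 / 120)) :=
          Finset.prod_le_prod (fun _ _ => norm_nonneg _) fun l _ => h2 l
      _ = Real.exp (-(2 * ((s:ℝ) + 1))) := by
          rw [Finset.prod_const, Finset.card_univ, Fintype.card_fin, ← Real.exp_nat_mul]
          congr 1; push_cast; ring
      _ ≤ 1 / 4 ^ (s + 1) := by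
          have e : Real.exp (-(2 * ((s:ℝ) + 1))) = 1 / Real.exp 2 ^ (s + 1) := by
            rw [← Real.exp_nat_mul, one_div, ← Real.exp_neg]
            congr 1; push_cast; ring
          rw [e]
          have := exp_two
          gcongr
  have h8 : ∏ s' ∈ Finset.univ.erase (⟨s, hs⟩ : Fin L), ∏ l : Fin (240 * (s'.1 + 1)),
      ‖ch (X ⟨s', l⟩) (k * wt (⟨s', l⟩ : BI L))‖ ≤ 1 :=
    Finset.prod_le_one (fun _ _ => Finset.prod_nonneg fun _ _ => norm_nonneg _)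
      fun s' _ => Finset.prod_le_one (fun _ _ => norm_nonneg _) fun l _ => norm_ch_le_one _ _
  have h9 : 0 ≤ ∏ s' ∈ Finset.univ.erase (⟨s, hs⟩ : Fin L), ∏ l : Fin (240 * (s'.1 + 1)),
      ‖ch (X ⟨s', l⟩) (k * wt (⟨s', l⟩ : BI L))‖ :=
    Finset.prod_nonneg fun _ _ => Finset.prod_nonneg fun _ _ => norm_nonneg _
  calc _ ≤ 1 / 4 ^ (s + 1) * (1:ℝ) := by
        apply mul_le_mul h1 h8 h9 (by positivity)
    _ = _ := mul_one _

lemma sum_ch_GG {L : ℕ} [Nonempty Ω] (X : BI L → Ω → ℝ) (hX : ∀ b z, |X b z| ≤ 1)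
    (hv : ∀ b, 1 / 6 ≤ vr (X b)) : ∀ L' : ℕ, L' ≤ L →
      ∑ k ∈ Finset.range (480 * 2 ^ L'), ‖ch (GG X) k‖ ≤ 720 - 240 / 2 ^ L' := by
  intro L'
  induction L' with
  | zero =>
    intro _
    calc ∑ k ∈ Finset.range (480 * 2 ^ 0), ‖ch (GG X) k‖
        ≤ ∑ k ∈ Finset.range (480 * 2 ^ 0), (1:ℝ) :=
          Finset.sum_le_sum fun k _ => norm_ch_le_one _ _
      _ = 720 - 240 / 2 ^ 0 := by simp; norm_num
  | succ s ih =>
    intro hs
    have h1 := ih (by omega)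
    have hle : 480 * 2 ^ s ≤ 480 * 2 ^ (s + 1) := by
      have : 2 ^ (s + 1) = 2 * 2 ^ s := by ring
      omega
    rw [← Finset.sum_range_add_sum_Ico _ hle]
    have h2 : ∑ k ∈ Finset.Ico (480 * 2 ^ s) (480 * 2 ^ (s + 1)), ‖ch (GG X) (k : ℕ)‖
        ≤ ∑ k ∈ Finset.Ico (480 * 2 ^ s) (480 * 2 ^ (s + 1) : ℕ), (1 / 4 ^ (s + 1) : ℝ) := by
      refine Finset.sum_le_sum fun k hk => ?_
      have hk' := Finset.mem_Ico.1 hk
      refine ch_GG_le X hX hv s (by omega) k ?_ ?_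
      · exact_mod_cast hk'.1
      · exact_mod_cast hk'.2.le
    rw [Finset.sum_const, Nat.card_Ico, nsmul_eq_mul] at h2
    have h3 : ((480 * 2 ^ (s + 1) - 480 * 2 ^ s : ℕ) : ℝ) = 480 * 2 ^ s := by
      have : 480 * 2 ^ (s + 1) - 480 * 2 ^ s = 480 * 2 ^ s := by
        have : 2 ^ (s + 1) = 2 * 2 ^ s := by ring
        omega
      rw [this]; push_cast; ring
    rw [h3] at h2
    have h4 : (480:ℝ) * 2 ^ s * (1 / 4 ^ (s + 1)) = 120 / 2 ^ s := by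
      have : (4:ℝ) ^ (s + 1) = 4 * (2 ^ s * 2 ^ s) := by
        rw [pow_succ, ← mul_pow]; norm_num; ring
      rw [this]; field_simp; norm_num
    have h5 : (240:ℝ) / 2 ^ (s + 1) = 120 / 2 ^ s := by
      rw [pow_succ]; field_simp; norm_num
    have h6 : (240:ℝ) / 2 ^ s = 120 / 2 ^ s + 120 / 2 ^ s := by ring
    linarith

/-- The law of the weighted sum has density at most `10000` at all scales above `δ`. -/
theorem GG_density {L : ℕ} [Nonempty Ω] (X : BI L → Ω → ℝ) (hX : ∀ b z, |X b z| ≤ 1)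
    (hv : ∀ b, 1 / 6 ≤ vr (X b)) (δ : ℝ) (hδ : 0 < δ) (hL : 1 / δ ≤ 480 * 2 ^ L)
    (t ℓ : ℝ) (hℓ : δ ≤ ℓ) :
    avr (fun x : BI L → Ω => if |GG X x - t| ≤ ℓ then (1:ℝ) else 0) < 20000 * ℓ := by
  have hℓ0 : 0 < ℓ := hδ.trans_le hℓ
  have htriv : avr (fun x : BI L → Ω => if |GG X x - t| ≤ ℓ then (1:ℝ) else 0) ≤ 1 := by
    calc avr (fun x : BI L → Ω => if |GG X x - t| ≤ ℓ then (1:ℝ) else 0)
        ≤ avr (fun _ : BI L → Ω => (1:ℝ)) := avr_mono fun x => by split_ifs <;> norm_num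
      _ = 1 := avr_const 1
  by_cases hbig : 1 / 480 < ℓ
  · linarith
  push Not at hbig
  have hinv : (480:ℝ) ≤ 1 / ℓ := by
    rw [le_div_iff₀ hℓ0]; linarith
  obtain ⟨L', hL1, hL2⟩ : ∃ L' : ℕ, 480 * 2 ^ L' ≤ 1 / ℓ ∧ 1 / ℓ < 480 * 2 ^ (L' + 1) := by
    have h1 : (1:ℝ) ≤ 1 / ℓ / 480 := by rw [le_div_iff₀ (by norm_num)]; linarith
    obtain ⟨m, hm1, hm2⟩ := exists_nat_pow_near h1 (by norm_num : (1:ℝ) < 2)
    refine ⟨m, ?_, ?_⟩
    · rw [le_div_iff₀ (by norm_num)] at hm1; linarith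
    · rw [div_lt_iff₀ (by norm_num)] at hm2; linarith
  have hLL : L' ≤ L := by
    have h1 : 1 / ℓ ≤ 1 / δ := one_div_le_one_div_of_le hδ hℓ
    have h2 : (480:ℝ) * 2 ^ L' ≤ 480 * 2 ^ L := hL1.trans (h1.trans hL)
    have h3 : (2:ℝ) ^ L' ≤ 2 ^ L := by linarith
    exact (pow_le_pow_iff_right₀ (by norm_num : (1:ℝ) < 2)).1 h3
  have h1 := atom_bound (GG X) (480 * 2 ^ L') (Nat.succ_le_of_lt (by positivity)) t ℓ (by
    push_cast
    rw [le_div_iff₀ (by positivity), mul_comm, ← le_div_iff₀ hℓ0]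
    exact hL1)
  have h2 := sum_ch_GG X hX hv L' hLL
  have h3 : (0:ℝ) < 240 / 2 ^ L' := by positivity
  have h4 : 8 / ((480 * 2 ^ L' : ℕ) : ℝ) * ∑ k ∈ Finset.range (480 * 2 ^ L'), ‖ch (GG X) k‖
      ≤ 8 / ((480 * 2 ^ L' : ℕ) : ℝ) * 720 := by
    gcongr
    linarith
  have h5 : 8 / ((480 * 2 ^ L' : ℕ) : ℝ) * 720 = 12 / 2 ^ L' := by
    push_cast; field_simp; norm_num
  have h6 : (12:ℝ) / 2 ^ L' < 20000 * ℓ := by
    rw [div_lt_iff₀ hℓ0] at hL2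
    rw [div_lt_iff₀ (by positivity)]
    have : (2:ℝ) ^ (L' + 1) = 2 * 2 ^ L' := by ring
    rw [this] at hL2
    nlinarith [show (0:ℝ) < 2 ^ L' by positivity]
  linarith

end Pool.Agent.TH275.AM
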